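import Mathlib

/-!
# Hilbert's inequality
-/

set_option autoImplicit false

open Filter Topology MeasureTheory

namespace Q88.QN

/-- the exponential `e^{i m θ}` -/
noncomputable def ee (m : ℤ) (θ : ℝ) : ℂ := Complex.exp (Complex.I * m * θ)

theorem ee_cont (m : ℤ) : Continuous (ee m) := by
  unfold ee
  fun_prop

theorem ee_two_pi (m : ℤ) : ee m (2 * Real.pi) = 1 := by
  unfold ee
  have : Complex.I * m * ((2 * Real.pi : ℝ) : ℂ) = m * (2 * Real.pi * Complex.I) := by
    push_cast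
    ring
  rw [this, Complex.exp_int_mul_two_pi_mul_I]

theorem ee_zero (m : ℤ) : ee m 0 = 1 := by simp [ee]

theorem ee_hasDeriv (m : ℤ) (θ : ℝ) : HasDerivAt (ee m) (Complex.I * m * ee m θ) θ := by
  have h1 : HasDerivAt (fun t : ℝ => Complex.I * m * (t : ℂ)) (Complex.I * m) θ := by
    have := (hasDerivAt_id (θ : ℂ)).comp_ofReal.const_mul (Complex.I * m)
    simpa using this
  have h2 := h1.cexp
  unfold ee
  convert h2 using 1
  ring

theorem ee_int (m : ℤ) (hm : m ≠ 0) : ∫ θ in (0 : ℝ)..(2 * Real.pi), ee m θ = 0 := by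
  have hc : (Complex.I * m : ℂ) ≠ 0 := by
    simp [hm]
  have h1 : ∀ θ ∈ Set.uIcc (0 : ℝ) (2 * Real.pi),
      HasDerivAt (fun t => (Complex.I * m)⁻¹ * ee m t) (ee m θ) θ := by
    intro θ _
    have := (ee_hasDeriv m θ).const_mul ((Complex.I * m : ℂ)⁻¹)
    rwa [← mul_assoc, inv_mul_cancel₀ hc, one_mul] at this
  rw [intervalIntegral.integral_eq_sub_of_hasDerivAt h1 ((ee_cont m).intervalIntegrable _ _),
    ee_two_pi, ee_zero, sub_self]

theorem ee_int_lin (m : ℤ) (hm : m ≠ 0) :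
    ∫ θ in (0 : ℝ)..(2 * Real.pi), ((Real.pi - θ : ℝ) : ℂ) * ee m θ =
      2 * Real.pi * Complex.I / m := by
  have hc : (Complex.I * m : ℂ) ≠ 0 := by
    simp [hm]
  have hm' : (m : ℂ) ≠ 0 := by exact_mod_cast hm
  have h1 : ∀ θ ∈ Set.uIcc (0 : ℝ) (2 * Real.pi),
      HasDerivAt (fun t : ℝ => (((Real.pi - t : ℝ) : ℂ) * (Complex.I * m)⁻¹ +
        ((Complex.I * m)⁻¹) ^ 2) * ee m t) (((Real.pi - θ : ℝ) : ℂ) * ee m θ) θ := by
    intro θ _
    have h2 : HasDerivAt (fun t : ℝ => ((Real.pi - t : ℝ) : ℂ)) (-1) θ := by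
      have := ((hasDerivAt_id θ).const_sub Real.pi).ofReal_comp
      simpa using this
    have h3 := ((h2.mul_const ((Complex.I * m : ℂ)⁻¹)).add_const (((Complex.I * m : ℂ)⁻¹) ^ 2)).mul
      (ee_hasDeriv m θ)
    refine h3.congr_deriv ?_
    field_simp
    ring
  rw [intervalIntegral.integral_eq_sub_of_hasDerivAt h1 ?_, ee_two_pi, ee_zero]
  · push_cast
    field_simp
    have hI : Complex.I ^ 3 = -Complex.I := by
      rw [pow_succ, Complex.I_sq]
      ring
    ring_nf
    rw [hI]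
    ring
  · apply Continuous.intervalIntegrable
    have := ee_cont m
    fun_prop

theorem ee_zero_eq (θ : ℝ) : ee 0 θ = 1 := by simp [ee]

theorem lin_int : ∫ θ in (0 : ℝ)..(2 * Real.pi), ((Real.pi - θ : ℝ) : ℂ) = 0 := by
  rw [intervalIntegral.integral_ofReal]
  rw [intervalIntegral.integral_sub (by simp) (by simp)]
  simp
  ring

/-- a trigonometric polynomial -/
noncomputable def tp (n : ℕ) (x : ℕ → ℂ) (θ : ℝ) : ℂ := ∑ p ∈ Finset.range n, x p * ee p θ

theorem tp_cont (n : ℕ) (x : ℕ → ℂ) : Continuous (tp n x) := by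
  unfold tp
  apply continuous_finsetSum
  intro p _
  exact continuous_const.mul (ee_cont p)

theorem conj_ee_mul (p q : ℕ) (θ : ℝ) :
    (starRingEnd ℂ) (ee p θ) * ee q θ = ee ((q : ℤ) - p) θ := by
  unfold ee
  rw [← Complex.exp_conj, ← Complex.exp_add]
  congr 1
  simp
  ring

theorem tp_mul (n : ℕ) (x y : ℕ → ℂ) (θ : ℝ) :
    (starRingEnd ℂ) (tp n x θ) * tp n y θ = ∑ p ∈ Finset.range n, ∑ q ∈ Finset.range n,
      (starRingEnd ℂ) (x p) * y q * ee ((q : ℤ) - p) θ := by
  unfold tp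
  rw [map_sum, Finset.sum_mul_sum]
  refine Finset.sum_congr rfl fun p _ => Finset.sum_congr rfl fun q _ => ?_
  rw [map_mul, ← conj_ee_mul]
  ring

theorem tp_norm (n : ℕ) (x : ℕ → ℂ) :
    ∫ θ in (0 : ℝ)..(2 * Real.pi), ‖tp n x θ‖ ^ 2 =
      2 * Real.pi * ∑ p ∈ Finset.range n, ‖x p‖ ^ 2 := by
  have h1 : ∀ θ : ℝ, ((‖tp n x θ‖ ^ 2 : ℝ) : ℂ) = ∑ p ∈ Finset.range n, ∑ q ∈ Finset.range n,
      (starRingEnd ℂ) (x p) * x q * ee ((q : ℤ) - p) θ := by
    intro θ
    rw [← tp_mul, Complex.conj_mul']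
    push_cast
    rfl
  have h2 : ((∫ θ in (0 : ℝ)..(2 * Real.pi), ‖tp n x θ‖ ^ 2 : ℝ) : ℂ) =
      ((2 * Real.pi * ∑ p ∈ Finset.range n, ‖x p‖ ^ 2 : ℝ) : ℂ) := by
    rw [← intervalIntegral.integral_ofReal]
    simp_rw [h1]
    rw [intervalIntegral.integral_finsetSum]
    · push_cast
      rw [Finset.mul_sum]
      refine Finset.sum_congr rfl fun p hp => ?_
      rw [intervalIntegral.integral_finsetSum]
      · rw [Finset.sum_eq_single p]
        · rw [intervalIntegral.integral_const_mul]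
          simp only [sub_self, ee_zero_eq]
          rw [intervalIntegral.integral_const, Complex.conj_mul']
          simp
          ring
        · intro q _ hq
          rw [intervalIntegral.integral_const_mul, ee_int, mul_zero]
          intro h
          apply hq
          omega
        · intro h
          exact absurd hp h
      · intro q _
        exact (continuous_const.mul (ee_cont _)).intervalIntegrable _ _
    · intro p _
      apply Continuous.intervalIntegrable
      apply continuous_finsetSum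
      intro q _
      exact continuous_const.mul (ee_cont _)
  exact_mod_cast h2

theorem form_eq (n : ℕ) (x y : ℕ → ℂ) :
    ∫ θ in (0 : ℝ)..(2 * Real.pi), ((Real.pi - θ : ℝ) : ℂ) *
      ((starRingEnd ℂ) (tp n x θ) * tp n y θ) =
      2 * Real.pi * Complex.I * ∑ p ∈ Finset.range n, ∑ q ∈ Finset.range n,
        (starRingEnd ℂ) (x p) * y q / ((q : ℂ) - p) := by
  have h1 : ∀ θ : ℝ, ((Real.pi - θ : ℝ) : ℂ) * ((starRingEnd ℂ) (tp n x θ) * tp n y θ) =
      ∑ p ∈ Finset.range n, ∑ q ∈ Finset.range n,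
        (starRingEnd ℂ) (x p) * y q * (((Real.pi - θ : ℝ) : ℂ) * ee ((q : ℤ) - p) θ) := by
    intro θ
    rw [tp_mul, Finset.mul_sum]
    refine Finset.sum_congr rfl fun p _ => ?_
    rw [Finset.mul_sum]
    refine Finset.sum_congr rfl fun q _ => ?_
    ring
  simp_rw [h1]
  have hcont : ∀ m : ℤ, Continuous (fun θ : ℝ => ((Real.pi - θ : ℝ) : ℂ) * ee m θ) := by
    intro m
    have := ee_cont m
    fun_prop
  rw [intervalIntegral.integral_finsetSum]
  · rw [Finset.mul_sum]
    refine Finset.sum_congr rfl fun p _ => ?_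
    rw [intervalIntegral.integral_finsetSum]
    · rw [Finset.mul_sum]
      refine Finset.sum_congr rfl fun q _ => ?_
      rw [intervalIntegral.integral_const_mul]
      by_cases hpq : q = p
      · subst hpq
        simp only [sub_self, ee_zero_eq, mul_one]
        rw [lin_int]
        simp
      · rw [ee_int_lin _ (by omega)]
        push_cast
        ring
    · intro q _
      exact (continuous_const.mul (hcont _)).intervalIntegrable _ _
  · intro p _
    apply Continuous.intervalIntegrable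
    apply continuous_finsetSum
    intro q _
    exact continuous_const.mul (hcont _)

theorem amgm_aux (S A B : ℝ) (hA : 0 ≤ A) (hB : 0 ≤ B)
    (h : ∀ t : ℝ, 0 < t → 2 * S ≤ t * A ^ 2 + t⁻¹ * B ^ 2) : S ≤ A * B := by
  rcases hA.eq_or_lt with hA0 | hA0
  · subst hA0
    rw [zero_mul]
    by_contra hS
    push Not at hS
    have h1 := h ((B ^ 2 + 1) / S) (by positivity)
    have h2 : ((B ^ 2 + 1) / S)⁻¹ * B ^ 2 < S := by
      rw [inv_div, div_mul_eq_mul_div, div_lt_iff₀ (by positivity)]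
      nlinarith [sq_nonneg B]
    nlinarith
  rcases hB.eq_or_lt with hB0 | hB0
  · subst hB0
    rw [mul_zero]
    by_contra hS
    push Not at hS
    have h1 := h (S / (A ^ 2 + 1)) (by positivity)
    have h2 : (S / (A ^ 2 + 1)) * A ^ 2 < S := by
      rw [div_mul_eq_mul_div, div_lt_iff₀ (by positivity)]
      nlinarith [sq_nonneg A]
    nlinarith
  · have h1 := h (B / A) (by positivity)
    have h2 : B / A * A ^ 2 + (B / A)⁻¹ * B ^ 2 = 2 * (A * B) := by
      field_simp
      ring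
    linarith

/-- Hilbert's inequality. -/
theorem hilbert_ineq (n : ℕ) (x y : ℕ → ℂ) :
    ‖∑ p ∈ Finset.range n, ∑ q ∈ Finset.range n,
        (starRingEnd ℂ) (x p) * y q / ((q : ℂ) - p)‖ ≤
      Real.pi * (√(∑ p ∈ Finset.range n, ‖x p‖ ^ 2) * √(∑ p ∈ Finset.range n, ‖y p‖ ^ 2)) := by
  set S := ∑ p ∈ Finset.range n, ∑ q ∈ Finset.range n,
        (starRingEnd ℂ) (x p) * y q / ((q : ℂ) - p) with hS
  have hpi := Real.pi_pos
  have key : ∀ t : ℝ, 0 < t → 2 * (‖S‖ / Real.pi) ≤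
      t * √(∑ p ∈ Finset.range n, ‖x p‖ ^ 2) ^ 2 +
      t⁻¹ * √(∑ p ∈ Finset.range n, ‖y p‖ ^ 2) ^ 2 := by
    intro t ht
    rw [Real.sq_sqrt (by positivity), Real.sq_sqrt (by positivity)]
    have h1 := form_eq n x y
    rw [← hS] at h1
    have h2 : ‖∫ θ in (0 : ℝ)..(2 * Real.pi), ((Real.pi - θ : ℝ) : ℂ) *
        ((starRingEnd ℂ) (tp n x θ) * tp n y θ)‖ ≤
        ∫ θ in (0 : ℝ)..(2 * Real.pi), (Real.pi / 2) * (t * ‖tp n x θ‖ ^ 2 +
          t⁻¹ * ‖tp n y θ‖ ^ 2) := by
      have cx := tp_cont n x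
      have cy := tp_cont n y
      apply intervalIntegral.norm_integral_le_of_norm_le (by positivity)
      · filter_upwards with θ
        intro hθ
        rw [norm_mul, norm_mul, RCLike.norm_conj]
        have h3 : ‖((Real.pi - θ : ℝ) : ℂ)‖ ≤ Real.pi := by
          rw [Complex.norm_real, Real.norm_eq_abs, abs_le]
          constructor
          · linarith [hθ.2]
          · linarith [hθ.1]
        have h4 : 2 * (‖tp n x θ‖ * ‖tp n y θ‖) ≤ t * ‖tp n x θ‖ ^ 2 + t⁻¹ * ‖tp n y θ‖ ^ 2 := by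
          have h5 : 0 ≤ (√t * ‖tp n x θ‖ - (√t)⁻¹ * ‖tp n y θ‖) ^ 2 := sq_nonneg _
          have h6 : √t * (√t)⁻¹ = 1 := mul_inv_cancel₀ (Real.sqrt_pos.2 ht).ne'
          have h7 : √t ^ 2 = t := Real.sq_sqrt ht.le
          have h8 : (√t)⁻¹ ^ 2 = t⁻¹ := by rw [inv_pow, h7]
          have h9 : (√t * ‖tp n x θ‖ - (√t)⁻¹ * ‖tp n y θ‖) ^ 2 = √t ^ 2 * ‖tp n x θ‖ ^ 2
              + (√t)⁻¹ ^ 2 * ‖tp n y θ‖ ^ 2 - 2 * (√t * (√t)⁻¹) * (‖tp n x θ‖ * ‖tp n y θ‖) := by
            ring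
          rw [h9, h6, h7, h8] at h5
          linarith
        have h10 : 0 ≤ ‖tp n x θ‖ * ‖tp n y θ‖ := by positivity
        calc ‖((Real.pi - θ : ℝ) : ℂ)‖ * (‖tp n x θ‖ * ‖tp n y θ‖)
            ≤ Real.pi * (‖tp n x θ‖ * ‖tp n y θ‖) := mul_le_mul_of_nonneg_right h3 h10
          _ ≤ Real.pi / 2 * (t * ‖tp n x θ‖ ^ 2 + t⁻¹ * ‖tp n y θ‖ ^ 2) := by nlinarith
      · apply Continuous.intervalIntegrable
        fun_prop
    rw [h1, intervalIntegral.integral_const_mul, intervalIntegral.integral_add,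
      intervalIntegral.integral_const_mul, intervalIntegral.integral_const_mul, tp_norm,
      tp_norm] at h2
    · rw [norm_mul, norm_mul, norm_mul, Complex.norm_I, mul_one, Complex.norm_real,
        Real.norm_eq_abs, abs_of_pos hpi] at h2
      have h11 : ‖(2 : ℂ)‖ = 2 := by simp
      rw [h11] at h2
      rw [← mul_div_assoc, div_le_iff₀ hpi]
      nlinarith
    · exact (continuous_const.mul ((tp_cont n x).norm.pow 2)).intervalIntegrable _ _
    · exact (continuous_const.mul ((tp_cont n y).norm.pow 2)).intervalIntegrable _ _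
  have h12 := amgm_aux _ _ _ (Real.sqrt_nonneg _) (Real.sqrt_nonneg _) key
  rw [div_le_iff₀ hpi] at h12
  linarith

end Q88.QN
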