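import Mathlib
import Pool.Agent.Q88.QN.Hilb

/-!
# Amplifications: the direct sum of countably many copies of an operator, and the backward shift
-/

set_option autoImplicit false
set_option linter.unusedSectionVars false

open Filter Topology

namespace Q88.QN

variable {K : Type} [NormedAddCommGroup K] [InnerProductSpace ℂ K]

/-- the direct sum of countably many copies of `K` -/
abbrev XX (K : Type) [NormedAddCommGroup K] : Type := lp (fun _ : ℕ => K) 2

theorem XX_sum (f : XX K) : HasSum (fun n => ‖f n‖ ^ 2) (‖f‖ ^ 2) := by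
  have h := lp.hasSum_norm (E := fun _ : ℕ => K) (p := 2) (by norm_num) f
  simpa using h

theorem memlp_of_sum (f : ℕ → K) (h : Summable fun n => ‖f n‖ ^ 2) :
    Memℓp (E := fun _ : ℕ => K) f 2 := by
  apply memℓp_gen
  simpa using h

theorem XX_le (f : XX K) (C : ℝ) (hC : 0 ≤ C) (h : (∑' n, ‖f n‖ ^ 2) ≤ C ^ 2) : ‖f‖ ≤ C := by
  rw [(XX_sum f).tsum_eq] at h
  exact le_of_sq_le_sq h hC |>.trans_eq rfl

/-- coordinatewise application -/
noncomputable def ampl (S : K →L[ℂ] K) : XX K →ₗ[ℂ] XX K where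
  toFun f := ⟨fun n => S (f n), memlp_of_sum _ (by
    refine Summable.of_nonneg_of_le (fun n => by positivity) (fun n => ?_)
      ((XX_sum f).summable.mul_left (‖S‖ ^ 2))
    rw [← mul_pow]
    exact pow_le_pow_left₀ (norm_nonneg _) (S.le_opNorm _) 2)⟩
  map_add' f g := by
    ext n
    simp <;> rfl
  map_smul' c f := by
    ext n
    simp

theorem ampl_apply (S : K →L[ℂ] K) (f : XX K) (n : ℕ) : (ampl S f) n = S (f n) := rfl

theorem ampl_bound (S : K →L[ℂ] K) (C : ℝ) (hC : 0 ≤ C) (h : ∀ x, ‖S x‖ ≤ C * ‖x‖) (f : XX K) :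
    ‖ampl S f‖ ≤ C * ‖f‖ := by
  apply XX_le _ _ (by positivity)
  rw [mul_pow, ← (XX_sum f).tsum_eq, ← tsum_mul_left]
  refine Summable.tsum_le_tsum (fun n => ?_) (XX_sum _).summable
    ((XX_sum f).summable.mul_left (C ^ 2))
  rw [← mul_pow, ampl_apply]
  exact pow_le_pow_left₀ (norm_nonneg _) (h _) 2

/-- the amplification of `S` -/
noncomputable def amp (S : K →L[ℂ] K) : XX K →L[ℂ] XX K :=
  (ampl S).mkContinuous ‖S‖ (ampl_bound S ‖S‖ (norm_nonneg _) S.le_opNorm)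

theorem amp_apply (S : K →L[ℂ] K) (f : XX K) (n : ℕ) : (amp S f) n = S (f n) := rfl

theorem amp_bound (S : K →L[ℂ] K) (C : ℝ) (hC : 0 ≤ C) (h : ∀ x, ‖S x‖ ≤ C * ‖x‖) (f : XX K) :
    ‖amp S f‖ ≤ C * ‖f‖ := ampl_bound S C hC h f

theorem amp_norm (S : K →L[ℂ] K) : ‖amp S‖ ≤ ‖S‖ :=
  LinearMap.mkContinuous_norm_le _ (norm_nonneg _) _

theorem amp_pow (S : K →L[ℂ] K) (m : ℕ) : (amp S) ^ m = amp (S ^ m) := by
  induction m with
  | zero =>
    ext f n
    rw [amp_apply]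
    simp
  | succ m ih =>
    ext f n
    rw [pow_succ', mul_apply_eq_comp, ih, amp_apply, amp_apply, amp_apply, pow_succ',
      mul_apply_eq_comp]

/-- the backward shift, as a linear map -/
noncomputable def bshl (K : Type) [NormedAddCommGroup K] [InnerProductSpace ℂ K] :
    XX K →ₗ[ℂ] XX K where
  toFun f := ⟨fun n => f (n + 1), memlp_of_sum _
    ((summable_nat_add_iff 1).2 (XX_sum f).summable)⟩
  map_add' f g := by
    ext n
    simp <;> rfl
  map_smul' c f := by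
    ext n
    simp

theorem bshl_apply (f : XX K) (n : ℕ) : (bshl K f) n = f (n + 1) := rfl

theorem bshl_bound (f : XX K) : ‖bshl K f‖ ≤ 1 * ‖f‖ := by
  rw [one_mul]
  apply XX_le _ _ (norm_nonneg _)
  rw [← (XX_sum f).tsum_eq, (XX_sum f).summable.tsum_eq_zero_add]
  have h : (∑' n, ‖(bshl K f) n‖ ^ 2) = ∑' n, ‖f (n + 1)‖ ^ 2 := rfl
  rw [h]
  have : 0 ≤ ‖f 0‖ ^ 2 := by positivity
  linarith

/-- the backward shift -/
noncomputable def bsh (K : Type) [NormedAddCommGroup K] [InnerProductSpace ℂ K] :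
    XX K →L[ℂ] XX K := (bshl K).mkContinuous 1 bshl_bound

theorem bsh_apply (f : XX K) (n : ℕ) : (bsh K f) n = f (n + 1) := rfl

theorem bsh_norm : ‖bsh K‖ ≤ 1 := LinearMap.mkContinuous_norm_le _ zero_le_one _

theorem bsh_comm (S : K →L[ℂ] K) : Commute (bsh K) (amp S) := by
  show bsh K * amp S = amp S * bsh K
  ext f n
  rw [mul_apply_eq_comp, mul_apply_eq_comp, bsh_apply, amp_apply, amp_apply, bsh_apply]

theorem amp_form (S : K →L[ℂ] K) (η : ℝ) (hη : 0 ≤ η)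
    (h : ∀ x y : K, ‖inner ℂ x (S y) + inner ℂ (S x) y‖ ≤ η * (‖S x‖ * ‖S y‖)) (f g : XX K) :
    ‖inner ℂ f (amp S g) + inner ℂ (amp S f) g‖ ≤ η * (‖amp S f‖ * ‖amp S g‖) := by
  have h1 := (lp.hasSum_inner (𝕜 := ℂ) f (amp S g)).add (lp.hasSum_inner (𝕜 := ℂ) (amp S f) g)
  have hF := XX_sum (amp S f)
  have hG := XX_sum (amp S g)
  rcases eq_or_lt_of_le hη with hη0 | hη0
  · rw [← hη0, zero_mul]
    rw [← h1.tsum_eq]
    have : (fun b => inner ℂ (f b) ((amp S g) b) + inner ℂ ((amp S f) b) (g b)) =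
        fun _ => (0 : ℂ) := by
      ext b
      have h2 := h (f b) (g b)
      rw [← hη0, zero_mul] at h2
      exact norm_le_zero_iff.1 h2
    rw [this]
    simp
  have key : ∀ t : ℝ, 0 < t → 2 * (‖inner ℂ f (amp S g) + inner ℂ (amp S f) g‖ / η) ≤
      t * ‖amp S f‖ ^ 2 + t⁻¹ * ‖amp S g‖ ^ 2 := by
    intro t ht
    have h3 := ((hF.mul_left t).add (hG.mul_left t⁻¹)).mul_left (η / 2)
    have h4 : ∀ n, ‖inner ℂ (f n) ((amp S g) n) + inner ℂ ((amp S f) n) (g n)‖ ≤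
        η / 2 * (t * ‖(amp S f) n‖ ^ 2 + t⁻¹ * ‖(amp S g) n‖ ^ 2) := by
      intro n
      refine (h (f n) (g n)).trans ?_
      have h5 : 2 * (‖S (f n)‖ * ‖S (g n)‖) ≤ t * ‖S (f n)‖ ^ 2 + t⁻¹ * ‖S (g n)‖ ^ 2 := by
        have h6 : 0 ≤ t⁻¹ * (t * ‖S (f n)‖ - ‖S (g n)‖) ^ 2 := by positivity
        have h7 : t⁻¹ * (t * ‖S (f n)‖ - ‖S (g n)‖) ^ 2 = t * ‖S (f n)‖ ^ 2 +
            t⁻¹ * ‖S (g n)‖ ^ 2 - 2 * (‖S (f n)‖ * ‖S (g n)‖) := by
          field_simp
          ring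
        linarith
      have h8 := mul_le_mul_of_nonneg_left h5 (by positivity : 0 ≤ η / 2)
      rw [amp_apply, amp_apply]
      linarith
    have h9 : ‖∑' n, (inner ℂ (f n) ((amp S g) n) + inner ℂ ((amp S f) n) (g n))‖ ≤ _ :=
      tsum_of_norm_bounded h3 h4
    rw [h1.tsum_eq] at h9
    rw [← mul_div_assoc, div_le_iff₀ hη0]
    linarith
  have h10 := amgm_aux _ _ _ (norm_nonneg _) (norm_nonneg _) key
  rw [div_le_iff₀ hη0] at h10
  linarith

end Q88.QN
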