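import Mathlib
import Pool.Agent.Q88.QN.Amp

/-!
# Eigenvectors of the backward shift, density, separability
-/

set_option autoImplicit false
set_option linter.unusedSectionVars false

open Filter Topology

namespace Q88.QN

variable {K : Type} [NormedAddCommGroup K] [InnerProductSpace ℂ K]

/-- `(β ^ n x)_n` -/
noncomputable def kv (β : ℝ) (hβ : |β| < 1) (x : K) : XX K :=
  ⟨fun n => ((β ^ n : ℝ) : ℂ) • x, memlp_of_sum _ (by
    have h : ∀ n, ‖((β ^ n : ℝ) : ℂ) • x‖ ^ 2 = (β ^ 2) ^ n * ‖x‖ ^ 2 := by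
      intro n
      rw [norm_smul, Complex.norm_real, Real.norm_eq_abs, mul_pow, sq_abs, ← pow_mul, ← pow_mul,
        mul_comm n 2]
    simp_rw [h]
    apply Summable.mul_right
    apply summable_geometric_of_lt_one (sq_nonneg _)
    rw [← sq_abs]
    nlinarith [abs_nonneg β])⟩

theorem kv_apply (β : ℝ) (hβ : |β| < 1) (x : K) (n : ℕ) :
    (kv β hβ x) n = ((β ^ n : ℝ) : ℂ) • x := rfl

theorem bsh_kv (β : ℝ) (hβ : |β| < 1) (x : K) : bsh K (kv β hβ x) = (β : ℂ) • kv β hβ x := by
  ext n
  rw [bsh_apply, kv_apply]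
  show _ = (β : ℂ) • (kv β hβ x) n
  rw [kv_apply, smul_smul]
  congr 1
  push_cast
  ring

theorem tsum_diff (a : ℕ → ℂ) (C : ℝ) (ha : ∀ n, ‖a n‖ ≤ C) :
    DifferentiableOn ℂ (fun z : ℂ => ∑' n, a n * z ^ n) (Metric.ball 0 1) := by
  intro z hz
  rw [Metric.mem_ball, dist_zero_right] at hz
  obtain ⟨r, hr1, hr2⟩ := exists_between hz
  have hr0 : 0 ≤ r := (norm_nonneg _).trans hr1.le
  have h : DifferentiableOn ℂ (fun z : ℂ => ∑' n, a n * z ^ n) (Metric.ball 0 r) := by
    apply Complex.differentiableOn_tsum_of_summable_norm (u := fun n => C * r ^ n)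
    · exact (summable_geometric_of_lt_one hr0 hr2).mul_left C
    · intro n
      exact ((differentiable_id.pow n).const_mul (a n)).differentiableOn
    · exact Metric.isOpen_ball
    · intro n w hw
      rw [Metric.mem_ball, dist_zero_right] at hw
      rw [norm_mul, norm_pow]
      exact mul_le_mul (ha n) (pow_le_pow_left₀ (norm_nonneg _) hw.le n) (by positivity)
        ((norm_nonneg _).trans (ha n))
  have h2 : Metric.ball (0 : ℂ) r ∈ 𝓝 z :=
    Metric.isOpen_ball.mem_nhds (by rw [Metric.mem_ball, dist_zero_right]; exact hr1)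
  exact (h.differentiableAt h2).differentiableWithinAt

theorem coeff_zero (a : ℕ → ℂ) (C : ℝ) (ha : ∀ n, ‖a n‖ ≤ C) (b c : ℝ) (hb : -1 ≤ b) (hc : c ≤ 1)
    (hbc : b < c) (h : ∀ β : ℝ, b < β → β < c → ∑' n, a n * (β : ℂ) ^ n = 0) : a 0 = 0 := by
  have h1 := (tsum_diff a C ha).analyticOnNhd Metric.isOpen_ball
  obtain ⟨m, hm1, hm2⟩ := exists_between hbc
  have hmem : (m : ℂ) ∈ Metric.ball (0 : ℂ) 1 := by
    rw [Metric.mem_ball, dist_zero_right, Complex.norm_real, Real.norm_eq_abs, abs_lt]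
    constructor <;> linarith
  have hfreq : ∃ᶠ z in 𝓝[≠] (m : ℂ), (∑' n, a n * z ^ n) = 0 := by
    have ht : Tendsto (fun β : ℝ => (β : ℂ)) (𝓝[≠] m) (𝓝[≠] (m : ℂ)) := by
      apply tendsto_nhdsWithin_of_tendsto_nhds_of_eventually_within
      · exact (Complex.continuous_ofReal.tendsto m).mono_left nhdsWithin_le_nhds
      · filter_upwards [self_mem_nhdsWithin] with β hβ
        intro h
        apply hβ
        rw [Set.mem_singleton_iff] at h ⊢
        exact_mod_cast h
    have he : ∀ᶠ β : ℝ in 𝓝[≠] m, (∑' n, a n * (β : ℂ) ^ n) = 0 := by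
      have : Set.Ioo b c ∈ 𝓝[≠] m := nhdsWithin_le_nhds (Ioo_mem_nhds hm1 hm2)
      filter_upwards [this] with β hβ
      exact h β hβ.1 hβ.2
    exact ht.frequently he.frequently
  have h2 := h1.eqOn_zero_of_preconnected_of_frequently_eq_zero
    (convex_ball _ _).isPreconnected hmem hfreq
  have h3 := h2 (Metric.mem_ball_self one_pos)
  have h4 : (∑' n, a n * (0 : ℂ) ^ n) = a 0 := by
    rw [tsum_eq_single 0]
    · simp
    · intro n hn
      simp [hn]
  rw [← h4]
  exact h3

theorem coeff_all (a : ℕ → ℂ) (C : ℝ) (ha : ∀ n, ‖a n‖ ≤ C) (b c : ℝ) (hb : -1 ≤ b) (hc : c ≤ 1)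
    (hbc : b < c) (hbc0 : 0 < b ∨ c < 0)
    (h : ∀ β : ℝ, b < β → β < c → ∑' n, a n * (β : ℂ) ^ n = 0) (k : ℕ) : a k = 0 := by
  induction k generalizing a with
  | zero => exact coeff_zero a C ha b c hb hc hbc h
  | succ k ih =>
    have h0 := coeff_zero a C ha b c hb hc hbc h
    apply ih (fun n => a (n + 1)) (fun n => ha _)
    intro β hβ1 hβ2
    have hβ0 : (β : ℂ) ≠ 0 := by
      have : β ≠ 0 := by
        rcases hbc0 with h1 | h1 <;> intro h2 <;> subst h2 <;> linarith
      exact_mod_cast this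
    have hs : Summable fun n => a n * (β : ℂ) ^ n := by
      apply Summable.of_norm_bounded (g := fun n => C * |β| ^ n)
      · apply Summable.mul_left
        apply summable_geometric_of_lt_one (abs_nonneg _)
        rw [abs_lt]
        constructor <;> linarith
      · intro n
        rw [norm_mul, norm_pow, Complex.norm_real, Real.norm_eq_abs]
        exact mul_le_mul_of_nonneg_right (ha n) (by positivity)
    have h1 := h β hβ1 hβ2
    rw [hs.tsum_eq_zero_add, h0, zero_mul, zero_add] at h1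
    have h2 : ∀ n, a (n + 1) * (β : ℂ) ^ (n + 1) = (a (n + 1) * (β : ℂ) ^ n) * β := by
      intro n
      ring
    simp_rw [h2] at h1
    rw [tsum_mul_right] at h1
    exact (mul_eq_zero.1 h1).resolve_right hβ0

theorem amp_dense [CompleteSpace K] (S : K →L[ℂ] K) (hS : DenseRange S) (b c : ℝ) (hb : -1 ≤ b)
    (hc : c ≤ 1) (hbc : b < c) (hbc0 : 0 < b ∨ c < 0) (D : Set (XX K))
    (hD : ∀ β : ℝ, b < β → β < c → ∀ (hβ : |β| < 1) (x : K), amp S (kv β hβ x) ∈ D) :
    Dense (Submodule.span ℂ D : Set (XX K)) := by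
  rw [Submodule.dense_iff_topologicalClosure_eq_top, Submodule.topologicalClosure_eq_top_iff,
    Submodule.eq_bot_iff]
  intro f hf
  rw [Submodule.mem_orthogonal] at hf
  have h1 : ∀ β : ℝ, b < β → β < c → ∀ x : K,
      ∑' n, inner ℂ (f n) (S x) * (β : ℂ) ^ n = 0 := by
    intro β hβ1 hβ2 x
    have hβ : |β| < 1 := by
      rw [abs_lt]
      constructor <;> linarith
    have h2 := hf _ (Submodule.subset_span (hD β hβ1 hβ2 hβ x))
    rw [inner_eq_zero_symm] at h2
    rw [lp.inner_eq_tsum] at h2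
    rw [← h2]
    congr 1
    ext n
    rw [amp_apply, kv_apply, map_smul, inner_smul_right]
    push_cast
    ring
  have h3 : ∀ n x, inner ℂ (f n) (S x) = 0 := by
    intro n x
    refine coeff_all (fun n => inner ℂ (f n) (S x)) (‖f‖ * ‖S x‖) (fun n => ?_) b c hb hc hbc hbc0
      (fun β hβ1 hβ2 => h1 β hβ1 hβ2 x) n
    exact (norm_inner_le_norm _ _).trans (mul_le_mul_of_nonneg_right
      (lp.norm_apply_le_norm (by norm_num) f n) (norm_nonneg _))
  ext n
  have h4 : ∀ y : K, inner ℂ (f n) y = 0 := by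
    intro y
    have h5 : (fun y : K => inner ℂ (f n) y) = fun _ => 0 := by
      apply hS.equalizer (Continuous.inner continuous_const continuous_id) continuous_const
      ext x
      exact h3 n x
    exact congrFun h5 y
  exact inner_self_eq_zero.1 (h4 (f n))

theorem XX_separable [TopologicalSpace.SeparableSpace K] : TopologicalSpace.SeparableSpace (XX K) := by
  have h1 : TopologicalSpace.IsSeparable (⋃ n : ℕ, Set.range fun x : K => lp.single (E := fun _ : ℕ => K) 2 n x) := by
    apply TopologicalSpace.IsSeparable.iUnion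
    intro n
    apply TopologicalSpace.isSeparable_range
    exact (lp.singleContinuousLinearMap ℂ (fun _ : ℕ => K) 2 n).continuous
  have h2 := (h1.span (R := ℂ)).closure
  rw [← TopologicalSpace.isSeparable_univ_iff]
  refine h2.mono fun f _ => ?_
  have h3 := lp.hasSum_single (E := fun _ : ℕ => K) (p := 2) (by norm_num) f
  refine mem_closure_of_tendsto h3 (Eventually.of_forall fun s => ?_)
  refine Submodule.sum_mem _ fun i _ => Submodule.subset_span ?_
  exact Set.mem_iUnion.2 ⟨i, f i, rfl⟩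

end Q88.QN
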