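import Mathlib

/-!
# Truncated power series as a Hilbert space
-/

set_option autoImplicit false

open Filter Topology

namespace Q88.QN

/-- the first `n` coefficients of a power series -/
noncomputable def tr (n : ℕ) : PowerSeries ℂ →ₗ[ℂ] EuclideanSpace ℂ (Fin n) where
  toFun φ := WithLp.toLp 2 (fun i : Fin n => PowerSeries.coeff (i : ℕ) φ)
  map_add' φ ψ := by
    ext i
    simp
  map_smul' c φ := by
    ext i
    simp

theorem tr_apply (n : ℕ) (φ : PowerSeries ℂ) (i : Fin n) :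
    (tr n φ) i = PowerSeries.coeff (i : ℕ) φ := rfl

theorem tr_inner (n : ℕ) (φ ψ : PowerSeries ℂ) :
    inner ℂ (tr n φ) (tr n ψ) = ∑ i ∈ Finset.range n,
      (starRingEnd ℂ) (PowerSeries.coeff i φ) * PowerSeries.coeff i ψ := by
  rw [PiLp.inner_apply, ← Fin.sum_univ_eq_sum_range
    (fun i => (starRingEnd ℂ) (PowerSeries.coeff i φ) * PowerSeries.coeff i ψ)]
  refine Finset.sum_congr rfl fun i _ => ?_
  rw [tr_apply, tr_apply, RCLike.inner_apply]
  ring

theorem tr_norm_sq (n : ℕ) (φ : PowerSeries ℂ) :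
    ‖tr n φ‖ ^ 2 = ∑ i ∈ Finset.range n, ‖PowerSeries.coeff i φ‖ ^ 2 := by
  rw [EuclideanSpace.norm_sq_eq, ← Fin.sum_univ_eq_sum_range
    (fun i => ‖PowerSeries.coeff i φ‖ ^ 2)]
  rfl

theorem tr_mono (n : ℕ) (φ ψ : PowerSeries ℂ)
    (h : ∀ i < n, ‖PowerSeries.coeff i φ‖ ≤ ‖PowerSeries.coeff i ψ‖) : ‖tr n φ‖ ≤ ‖tr n ψ‖ := by
  apply le_of_sq_le_sq _ (norm_nonneg _)
  rw [tr_norm_sq, tr_norm_sq]
  apply Finset.sum_le_sum
  intro i hi
  exact pow_le_pow_left₀ (norm_nonneg _) (h i (Finset.mem_range.1 hi)) 2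

theorem tr_X_mul (n m : ℕ) (φ : PowerSeries ℂ) : ‖tr n (PowerSeries.X ^ m * φ)‖ ≤ ‖tr n φ‖ := by
  apply le_of_sq_le_sq _ (norm_nonneg _)
  rw [tr_norm_sq, tr_norm_sq]
  by_cases hm : m ≤ n
  · obtain ⟨k, rfl⟩ := Nat.exists_eq_add_of_le hm
    rw [Finset.sum_range_add]
    have h1 : ∑ i ∈ Finset.range m, ‖PowerSeries.coeff i (PowerSeries.X ^ m * φ)‖ ^ 2 = 0 := by
      apply Finset.sum_eq_zero
      intro i hi
      rw [PowerSeries.coeff_X_pow_mul', if_neg (by
        have := Finset.mem_range.1 hi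
        omega), norm_zero]
      simp
    rw [h1, zero_add]
    have h2 : ∑ i ∈ Finset.range k, ‖PowerSeries.coeff (m + i) (PowerSeries.X ^ m * φ)‖ ^ 2 =
        ∑ i ∈ Finset.range k, ‖PowerSeries.coeff i φ‖ ^ 2 := by
      refine Finset.sum_congr rfl fun i _ => ?_
      rw [PowerSeries.coeff_X_pow_mul', if_pos (Nat.le_add_right _ _), Nat.add_sub_cancel_left]
    rw [h2]
    apply Finset.sum_le_sum_of_subset_of_nonneg
    · exact Finset.range_mono (by omega)
    · intro i _ _
      positivity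
  · have h1 : ∑ i ∈ Finset.range n, ‖PowerSeries.coeff i (PowerSeries.X ^ m * φ)‖ ^ 2 = 0 := by
      apply Finset.sum_eq_zero
      intro i hi
      rw [PowerSeries.coeff_X_pow_mul', if_neg (by
        have := Finset.mem_range.1 hi
        omega), norm_zero]
      simp
    rw [h1]
    positivity

/-- Young's inequality for truncated convolutions. -/
theorem tr_young (n : ℕ) (ψ φ : PowerSeries ℂ) :
    ‖tr n (ψ * φ)‖ ≤ (∑ m ∈ Finset.range n, ‖PowerSeries.coeff m ψ‖) * ‖tr n φ‖ := by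
  have h1 : tr n (ψ * φ) = tr n (∑ m ∈ Finset.range n,
      (PowerSeries.coeff m ψ) • (PowerSeries.X ^ m * φ)) := by
    ext i
    rw [tr_apply, tr_apply, map_sum, PowerSeries.coeff_mul,
      Finset.Nat.sum_antidiagonal_eq_sum_range_succ
        (fun p q => PowerSeries.coeff p ψ * PowerSeries.coeff q φ)]
    have h2 : Finset.range (i : ℕ).succ ⊆ Finset.range n := by
      apply Finset.range_mono
      have := i.2
      omega
    rw [← Finset.sum_subset h2]
    · refine Finset.sum_congr rfl fun m hm => ?_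
      rw [PowerSeries.coeff_smul, PowerSeries.coeff_X_pow_mul', if_pos (by
        have := Finset.mem_range.1 hm
        omega), smul_eq_mul]
    · intro m _ hm
      rw [PowerSeries.coeff_smul, PowerSeries.coeff_X_pow_mul', if_neg (by
        intro h
        exact hm (Finset.mem_range.2 (by omega))), smul_zero]
  rw [h1, map_sum, Finset.sum_mul]
  refine (norm_sum_le _ _).trans ?_
  apply Finset.sum_le_sum
  intro m _
  rw [map_smul, norm_smul]
  exact mul_le_mul_of_nonneg_left (tr_X_mul n m φ) (norm_nonneg _)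

end Q88.QN
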