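import Mathlib
import Pool.Agent.Q88.QN.Hilb
import Pool.Agent.Q88.QN.PS

/-!
# Multiplication by `i (ρ - ∑ X^m / m)` on truncated power series
-/

set_option autoImplicit false

open Filter Topology

namespace Q88.QN

/-- the power series `∑ X^m / m` -/
noncomputable def la : PowerSeries ℂ := PowerSeries.mk (fun m => ((m : ℂ))⁻¹)

/-- the power series `i (ρ - ∑ X^m / m)` -/
noncomputable def LL (ρ : ℝ) : PowerSeries ℂ := Complex.I • ((ρ : ℂ) • (1 : PowerSeries ℂ) - la)

theorem LL_mul (ρ : ℝ) (φ : PowerSeries ℂ) :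
    LL ρ * φ = Complex.I • ((ρ : ℂ) • φ - la * φ) := by
  unfold LL
  rw [smul_mul_assoc, sub_mul, smul_mul_assoc, one_mul]

theorem la_coeff (x : PowerSeries ℂ) (n i : ℕ) (hi : i < n) :
    PowerSeries.coeff i (la * x) = ∑ q ∈ Finset.range n,
      if q < i then PowerSeries.coeff q x / ((i : ℂ) - q) else 0 := by
  rw [mul_comm, PowerSeries.coeff_mul, Finset.Nat.sum_antidiagonal_eq_sum_range_succ
    (fun p q => PowerSeries.coeff p x * PowerSeries.coeff q la)]
  have h2 : Finset.range i.succ ⊆ Finset.range n := Finset.range_mono (by omega)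
  rw [← Finset.sum_subset h2]
  · refine Finset.sum_congr rfl fun q hq => ?_
    have hq' := Finset.mem_range.1 hq
    rw [la, PowerSeries.coeff_mk]
    by_cases h : q < i
    · rw [if_pos h, Nat.cast_sub h.le, div_eq_mul_inv]
    · have : i = q := by omega
      subst this
      simp
  · intro q _ hq
    rw [if_neg]
    intro h
    exact hq (Finset.mem_range.2 (by omega))

theorem la_form (n : ℕ) (x y : PowerSeries ℂ) :
    inner ℂ (tr n (la * x)) (tr n y) - inner ℂ (tr n x) (tr n (la * y)) =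
      ∑ p ∈ Finset.range n, ∑ q ∈ Finset.range n,
        (starRingEnd ℂ) (PowerSeries.coeff p x) * PowerSeries.coeff q y / ((q : ℂ) - p) := by
  rw [tr_inner, tr_inner]
  have h1 : ∑ i ∈ Finset.range n, (starRingEnd ℂ) (PowerSeries.coeff i (la * x)) *
      PowerSeries.coeff i y = ∑ p ∈ Finset.range n, ∑ q ∈ Finset.range n,
      if p < q then (starRingEnd ℂ) (PowerSeries.coeff p x) * PowerSeries.coeff q y /
        ((q : ℂ) - p) else 0 := by
    rw [Finset.sum_comm]
    refine Finset.sum_congr rfl fun i hi => ?_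
    rw [la_coeff x n i (Finset.mem_range.1 hi), map_sum, Finset.sum_mul]
    refine Finset.sum_congr rfl fun q _ => ?_
    split_ifs
    · rw [map_div₀]
      simp
      ring
    · simp
  have h2 : ∑ i ∈ Finset.range n, (starRingEnd ℂ) (PowerSeries.coeff i x) *
      PowerSeries.coeff i (la * y) = ∑ p ∈ Finset.range n, ∑ q ∈ Finset.range n,
      if q < p then (starRingEnd ℂ) (PowerSeries.coeff p x) * PowerSeries.coeff q y /
        ((p : ℂ) - q) else 0 := by
    refine Finset.sum_congr rfl fun i hi => ?_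
    rw [la_coeff y n i (Finset.mem_range.1 hi), Finset.mul_sum]
    refine Finset.sum_congr rfl fun q _ => ?_
    split_ifs
    · ring
    · simp
  rw [h1, h2, ← Finset.sum_sub_distrib]
  refine Finset.sum_congr rfl fun p _ => ?_
  rw [← Finset.sum_sub_distrib]
  refine Finset.sum_congr rfl fun q _ => ?_
  rcases lt_trichotomy p q with h | h | h
  · rw [if_pos h, if_neg (by omega), sub_zero]
  · subst h
    simp
  · rw [if_neg (by omega), if_pos h, zero_sub]
    have h3 : (p : ℂ) - q ≠ 0 := by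
      rw [sub_ne_zero]
      exact_mod_cast h.ne'
    have h4 : (q : ℂ) - p ≠ 0 := by
      rw [sub_ne_zero]
      exact_mod_cast h.ne
    field_simp
    ring

theorem la_ineq (n : ℕ) (x y : PowerSeries ℂ) :
    ‖inner ℂ (tr n (la * x)) (tr n y) - inner ℂ (tr n x) (tr n (la * y))‖ ≤
      Real.pi * (‖tr n x‖ * ‖tr n y‖) := by
  rw [la_form]
  have h := hilbert_ineq n (fun p => PowerSeries.coeff p x) (fun q => PowerSeries.coeff q y)
  rw [← tr_norm_sq, ← tr_norm_sq, Real.sqrt_sq (norm_nonneg _), Real.sqrt_sq (norm_nonneg _)] at h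
  exact h

/-- the real part of multiplication by `LL ρ` is bounded -/
theorem LL_form (n : ℕ) (ρ : ℝ) (x y : PowerSeries ℂ) :
    ‖inner ℂ (tr n (LL ρ * x)) (tr n y) + inner ℂ (tr n x) (tr n (LL ρ * y))‖ ≤
      Real.pi * (‖tr n x‖ * ‖tr n y‖) := by
  have h1 : inner ℂ (tr n (LL ρ * x)) (tr n y) + inner ℂ (tr n x) (tr n (LL ρ * y)) =
      Complex.I * (inner ℂ (tr n (la * x)) (tr n y) - inner ℂ (tr n x) (tr n (la * y))) := by
    rw [LL_mul, LL_mul, map_smul, map_smul, inner_smul_left, inner_smul_right, map_sub, map_sub,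
      map_smul, map_smul, inner_sub_left, inner_sub_right, inner_smul_left, inner_smul_right]
    simp
    ring
  rw [h1, norm_mul, Complex.norm_I, one_mul]
  exact la_ineq n x y

/-- resolvent bound near the imaginary direction -/
theorem LL_res (n : ℕ) (ρ ε : ℝ) (hε : 0 ≤ ε) (hε1 : ε * Real.pi ≤ 1) (y : PowerSeries ℂ) :
    (1 - ε * Real.pi) * ‖tr n y‖ ≤ ‖tr n ((1 - (ε : ℂ) • LL ρ) * y)‖ := by
  have hpi := Real.pi_pos
  apply le_of_sq_le_sq _ (norm_nonneg _)
  have h1 : tr n ((1 - (ε : ℂ) • LL ρ) * y) = tr n y - (ε : ℂ) • tr n (LL ρ * y) := by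
    rw [sub_mul, one_mul, map_sub, smul_mul_assoc, map_smul]
  rw [h1, @norm_sub_sq ℂ, norm_smul, inner_smul_right]
  have h2 := LL_form n ρ y y
  have h3 : (RCLike.re ((ε : ℂ) * inner ℂ (tr n y) (tr n (LL ρ * y))) : ℝ) =
      ε * (inner ℂ (tr n y) (tr n (LL ρ * y)) : ℂ).re := by
    simp
  rw [h3]
  have h4 : 2 * (inner ℂ (tr n y) (tr n (LL ρ * y)) : ℂ).re ≤
      Real.pi * (‖tr n y‖ * ‖tr n y‖) := by
    refine le_trans ?_ ((Complex.re_le_norm _).trans h2)
    rw [Complex.add_re]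
    have h5 : (inner ℂ (tr n (LL ρ * y)) (tr n y) : ℂ).re =
        (inner ℂ (tr n y) (tr n (LL ρ * y)) : ℂ).re := by
      rw [← inner_conj_symm, Complex.conj_re]
    rw [h5]
    linarith
  have h6 : 0 ≤ ‖tr n y‖ := norm_nonneg _
  have h7 : 0 ≤ (‖(ε : ℂ)‖ * ‖tr n (LL ρ * y)‖) ^ 2 := by positivity
  have h8 : ε * (2 * (inner ℂ (tr n y) (tr n (LL ρ * y)) : ℂ).re) ≤
      ε * (Real.pi * (‖tr n y‖ * ‖tr n y‖)) := mul_le_mul_of_nonneg_left h4 hε
  have h9 : (1 - ε * Real.pi) ^ 2 ≤ 1 - ε * Real.pi := by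
    have h10 : 0 ≤ ε * Real.pi := by positivity
    nlinarith
  nlinarith [mul_le_mul_of_nonneg_right h9 (sq_nonneg ‖tr n y‖)]

/-- growth bound -/
theorem LL_grow (n : ℕ) (ρ r M : ℝ) (hr0 : 0 < r) (hr1 : r < 1) (hM : M ≤ ρ + Real.log (1 - r))
    (hM0 : 0 ≤ M) (k : ℕ) (y : PowerSeries ℂ) :
    M ^ k * (r ^ n * ‖tr n y‖) ≤ ‖tr n (LL ρ ^ k * y)‖ := by
  have hlog : ∑ m ∈ Finset.range n, ‖PowerSeries.coeff m (PowerSeries.rescale (r : ℂ) la)‖ ≤
      -Real.log (1 - r) := by
    have h1 : HasSum (fun n : ℕ => r ^ (n + 1) / (n + 1)) (-Real.log (1 - r)) :=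
      Real.hasSum_pow_div_log_of_abs_lt_one (by rw [abs_of_pos hr0]; exact hr1)
    have h2 : ∀ m : ℕ, ‖PowerSeries.coeff m (PowerSeries.rescale (r : ℂ) la)‖ = r ^ m / m := by
      intro m
      rw [PowerSeries.coeff_rescale, la, PowerSeries.coeff_mk, norm_mul, norm_pow, norm_inv,
        Complex.norm_real, Real.norm_eq_abs, abs_of_pos hr0, Complex.norm_natCast, div_eq_mul_inv]
    have h3 : ∑ m ∈ Finset.range (n + 1), r ^ m / (m : ℝ) =
        ∑ m ∈ Finset.range n, r ^ (m + 1) / ((m : ℝ) + 1) := by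
      rw [Finset.sum_range_succ']
      simp
    simp_rw [h2]
    calc ∑ m ∈ Finset.range n, r ^ m / (m : ℝ) ≤ ∑ m ∈ Finset.range (n + 1), r ^ m / (m : ℝ) := by
          rw [Finset.sum_range_succ]
          have : 0 ≤ r ^ n / (n : ℝ) := by positivity
          linarith
      _ = ∑ m ∈ Finset.range n, r ^ (m + 1) / ((m : ℝ) + 1) := h3
      _ ≤ -Real.log (1 - r) := by
          apply sum_le_hasSum _ _ h1
          intro i _
          positivity
  have step : ∀ z : PowerSeries ℂ, M * ‖tr n (PowerSeries.rescale (r : ℂ) z)‖ ≤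
      ‖tr n (PowerSeries.rescale (r : ℂ) (LL ρ * z))‖ := by
    intro z
    have h1 : PowerSeries.rescale (r : ℂ) (LL ρ * z) = Complex.I •
        ((ρ : ℂ) • PowerSeries.rescale (r : ℂ) z -
          PowerSeries.rescale (r : ℂ) la * PowerSeries.rescale (r : ℂ) z) := by
      rw [LL_mul, ← map_mul]
      ext i
      rw [PowerSeries.coeff_rescale, PowerSeries.coeff_smul, PowerSeries.coeff_smul, map_sub,
        map_sub, PowerSeries.coeff_smul, PowerSeries.coeff_smul, PowerSeries.coeff_rescale,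
        PowerSeries.coeff_rescale]
      simp only [smul_eq_mul]
      ring
    rw [h1, map_smul, norm_smul, Complex.norm_I, one_mul, map_sub, map_smul]
    have h2 := tr_young n (PowerSeries.rescale (r : ℂ) la) (PowerSeries.rescale (r : ℂ) z)
    have h3 : ‖(ρ : ℂ) • tr n (PowerSeries.rescale (r : ℂ) z)‖ =
        |ρ| * ‖tr n (PowerSeries.rescale (r : ℂ) z)‖ := by
      rw [norm_smul, Complex.norm_real, Real.norm_eq_abs]
    have h4 := norm_sub_norm_le ((ρ : ℂ) • tr n (PowerSeries.rescale (r : ℂ) z))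
      (tr n (PowerSeries.rescale (r : ℂ) la * PowerSeries.rescale (r : ℂ) z))
    rw [h3] at h4
    have h5 : 0 ≤ ‖tr n (PowerSeries.rescale (r : ℂ) z)‖ := norm_nonneg _
    have h6 := mul_le_mul_of_nonneg_right hlog h5
    have h7 := mul_le_mul_of_nonneg_right (le_abs_self ρ) h5
    have h8 := mul_le_mul_of_nonneg_right hM h5
    nlinarith
  have h1 : M ^ k * ‖tr n (PowerSeries.rescale (r : ℂ) y)‖ ≤
      ‖tr n (PowerSeries.rescale (r : ℂ) (LL ρ ^ k * y))‖ := by
    induction k with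
    | zero => simp
    | succ k ih =>
      rw [pow_succ', pow_succ', mul_assoc, mul_assoc]
      exact (mul_le_mul_of_nonneg_left ih hM0).trans (step _)
  have h2 : r ^ n * ‖tr n y‖ ≤ ‖tr n (PowerSeries.rescale (r : ℂ) y)‖ := by
    have h3 : r ^ n * ‖tr n y‖ = ‖tr n (((r ^ n : ℝ) : ℂ) • y)‖ := by
      rw [map_smul, norm_smul, Complex.norm_real, Real.norm_eq_abs, abs_of_pos (by positivity)]
    rw [h3]
    apply tr_mono
    intro i hi
    rw [PowerSeries.coeff_smul, PowerSeries.coeff_rescale, smul_eq_mul, norm_mul, norm_mul]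
    apply mul_le_mul_of_nonneg_right _ (norm_nonneg _)
    have h5 : ‖((r ^ n : ℝ) : ℂ)‖ = r ^ n := by
      rw [Complex.norm_real, Real.norm_eq_abs, abs_of_pos (by positivity)]
    have h6 : ‖(r : ℂ) ^ i‖ = r ^ i := by
      rw [norm_pow, Complex.norm_real, Real.norm_eq_abs, abs_of_pos hr0]
    rw [h5, h6]
    exact pow_le_pow_of_le_one hr0.le hr1.le hi.le
  have h4 : ‖tr n (PowerSeries.rescale (r : ℂ) (LL ρ ^ k * y))‖ ≤ ‖tr n (LL ρ ^ k * y)‖ := by
    apply tr_mono
    intro i _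
    rw [PowerSeries.coeff_rescale, norm_mul, norm_pow, Complex.norm_real, Real.norm_eq_abs,
      abs_of_pos hr0]
    exact mul_le_of_le_one_left (norm_nonneg _) (pow_le_one₀ hr0.le hr1.le)
  exact ((mul_le_mul_of_nonneg_left h2 (by positivity)).trans h1).trans h4

end Q88.QN
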