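import Mathlib
import Pool.Agent.Q88.QN.Lg

/-!
# The constant vector
-/

set_option autoImplicit false

open Filter Topology

namespace Q88.QN

/-- the constant coefficient sequence -/
noncomputable def onv : PowerSeries ℂ := PowerSeries.mk (fun _ => 1)

theorem onv_norm (n : ℕ) : ‖tr n onv‖ ^ 2 = n := by
  rw [tr_norm_sq]
  simp [onv]

theorem la_onv (i : ℕ) : PowerSeries.coeff i (la * onv) = ((harmonic i : ℝ) : ℂ) := by
  rw [PowerSeries.coeff_mul, Finset.Nat.sum_antidiagonal_eq_sum_range_succ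
    (fun p q => PowerSeries.coeff p la * PowerSeries.coeff q onv), Finset.sum_range_succ']
  simp [la, onv, harmonic]

theorem LL_onv (ρ : ℝ) (i : ℕ) : ‖PowerSeries.coeff i (LL ρ * onv)‖ = |ρ - harmonic i| := by
  rw [LL_mul, PowerSeries.coeff_smul, map_sub, PowerSeries.coeff_smul, la_onv, smul_eq_mul,
    norm_mul, Complex.norm_I, one_mul]
  have : (ρ : ℂ) • PowerSeries.coeff i onv - ((harmonic i : ℝ) : ℂ) =
      ((ρ - harmonic i : ℝ) : ℂ) := by
    simp [onv]
  rw [this, Complex.norm_real, Real.norm_eq_abs]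

theorem sum_sqrt (n : ℕ) : ∑ i ∈ Finset.range n, (√((i : ℝ) + 1))⁻¹ ≤ 2 * √(n : ℝ) := by
  induction n with
  | zero => simp
  | succ n ih =>
    rw [Finset.sum_range_succ]
    have h1 : (√((n : ℝ) + 1))⁻¹ ≤ 2 * √((n : ℝ) + 1) - 2 * √(n : ℝ) := by
      have ha : 0 < √((n : ℝ) + 1) := Real.sqrt_pos.2 (by positivity)
      have hb : 0 ≤ √(n : ℝ) := Real.sqrt_nonneg _
      have hsa : √((n : ℝ) + 1) ^ 2 = (n : ℝ) + 1 := Real.sq_sqrt (by positivity)
      have hsb : √(n : ℝ) ^ 2 = n := Real.sq_sqrt (by positivity)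
      rw [inv_le_iff_one_le_mul₀ ha]
      nlinarith [sq_nonneg (√((n : ℝ) + 1) - √(n : ℝ))]
    push_cast
    linarith

theorem log_sq_le (t : ℝ) (ht : 1 ≤ t) : Real.log t ^ 2 ≤ 16 * √t := by
  have h0 : 0 ≤ t := by linarith
  have h1 : 0 < √(√t) := Real.sqrt_pos.2 (Real.sqrt_pos.2 (by linarith))
  have h2 : √(√t) ^ 2 = √t := Real.sq_sqrt (Real.sqrt_nonneg _)
  have h3 : √t ^ 2 = t := Real.sq_sqrt h0
  have h4 : Real.log t = 4 * Real.log (√(√t)) := by
    have : t = √(√t) ^ 4 := by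
      calc t = (√(√t) ^ 2) ^ 2 := by rw [h2, h3]
        _ = √(√t) ^ 4 := by ring
    conv_lhs => rw [this]
    rw [Real.log_pow]
    norm_num
  have h5 : Real.log (√(√t)) ≤ √(√t) := by
    have := Real.log_le_sub_one_of_pos h1
    linarith
  have h6 : 0 ≤ Real.log t := Real.log_nonneg ht
  rw [h4] at h6 ⊢
  have h7 : 0 ≤ Real.log (√(√t)) := by linarith
  nlinarith

theorem LL_onv_bound (n : ℕ) (hn : 0 < n) (κ : ℝ) (hκ : 1 ≤ κ) :
    ‖tr n (LL (Real.log n + κ) * onv)‖ ^ 2 ≤ (2 * κ ^ 2 + 64) * n := by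
  have hn' : (1 : ℝ) ≤ n := by exact_mod_cast hn
  rw [tr_norm_sq]
  have h1 : ∀ i ∈ Finset.range n, ‖PowerSeries.coeff i (LL (Real.log n + κ) * onv)‖ ^ 2 ≤
      2 * κ ^ 2 + 32 * √(n : ℝ) * (√((i : ℝ) + 1))⁻¹ := by
    intro i hi
    have hi' : (i : ℝ) + 1 ≤ n := by exact_mod_cast Finset.mem_range.1 hi
    rw [LL_onv]
    have h2 : Real.log ((i : ℝ) + 1) ≤ harmonic i := by
      have := log_add_one_le_harmonic i
      exact_mod_cast this
    have h3 : (harmonic i : ℝ) ≤ 1 + Real.log n := by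
      rcases Nat.eq_zero_or_pos i with h | h
      · subst h
        simp
        have := Real.log_nonneg hn'
        linarith
      · have h4 := harmonic_le_one_add_log i
        have h5 : Real.log i ≤ Real.log n := by
          apply Real.log_le_log (by exact_mod_cast h)
          linarith
        linarith
    have h4 : |Real.log n + κ - harmonic i| ≤ κ + Real.log (n / ((i : ℝ) + 1)) := by
      rw [Real.log_div (by positivity) (by positivity), abs_of_nonneg (by linarith)]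
      linarith
    have h5 : 1 ≤ (n : ℝ) / ((i : ℝ) + 1) := by
      rw [le_div_iff₀ (by positivity)]
      linarith
    have h6 := log_sq_le _ h5
    have h7 : √((n : ℝ) / ((i : ℝ) + 1)) = √(n : ℝ) * (√((i : ℝ) + 1))⁻¹ := by
      rw [Real.sqrt_div (by positivity), div_eq_mul_inv]
    rw [h7] at h6
    have h8 : |Real.log n + κ - harmonic i| ^ 2 ≤ (κ + Real.log (n / ((i : ℝ) + 1))) ^ 2 :=
      pow_le_pow_left₀ (abs_nonneg _) h4 2
    have h9 : (κ + Real.log (n / ((i : ℝ) + 1))) ^ 2 ≤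
        2 * κ ^ 2 + 2 * Real.log (n / ((i : ℝ) + 1)) ^ 2 := by
      nlinarith [sq_nonneg (κ - Real.log (n / ((i : ℝ) + 1)))]
    linarith
  refine (Finset.sum_le_sum h1).trans ?_
  rw [Finset.sum_add_distrib]
  simp only [Finset.sum_const, Finset.card_range, nsmul_eq_mul]
  rw [← Finset.mul_sum]
  have h2 := sum_sqrt n
  have h3 : √(n : ℝ) * √(n : ℝ) = n := Real.mul_self_sqrt (by positivity)
  have h4 : 0 ≤ √(n : ℝ) := Real.sqrt_nonneg _
  have h5 : 32 * √(n : ℝ) * ∑ i ∈ Finset.range n, (√((i : ℝ) + 1))⁻¹ ≤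
      32 * √(n : ℝ) * (2 * √(n : ℝ)) := mul_le_mul_of_nonneg_left h2 (by positivity)
  nlinarith

end Q88.QN
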