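import Mathlib
import Pool.Agent.Q88.QN.Vec

/-!
# Smooth vectors
-/

set_option autoImplicit false

open Filter Topology

namespace Q88.QN

/-- the scale at stage `n` -/
noncomputable def rh (κ : ℝ) (n : ℕ) : ℝ := Real.log ((n + 2 : ℕ) : ℝ) + κ

theorem rh_pos (κ : ℝ) (hκ : 1 ≤ κ) (n : ℕ) : 0 < rh κ n := by
  have : 0 ≤ Real.log ((n + 2 : ℕ) : ℝ) := Real.log_nonneg (by push_cast; linarith)
  unfold rh
  linarith

theorem LL_const (ρ : ℝ) : PowerSeries.constantCoeff (LL ρ) = Complex.I * ρ := by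
  unfold LL
  rw [← PowerSeries.coeff_zero_eq_constantCoeff_apply, PowerSeries.coeff_smul, map_sub,
    PowerSeries.coeff_smul]
  simp [la]

/-- the unit with value `(LL ρ)⁻¹` -/
noncomputable def Tu (ρ : ℝ) (hρ : 0 < ρ) : (PowerSeries ℂ)ˣ where
  val := (LL ρ)⁻¹
  inv := LL ρ
  val_inv := by
    apply PowerSeries.inv_mul_cancel
    rw [LL_const]
    simp [hρ.ne']
  inv_val := by
    apply PowerSeries.mul_inv_cancel
    rw [LL_const]
    simp [hρ.ne']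

theorem Tu_inv (ρ : ℝ) (hρ : 0 < ρ) : ((Tu ρ hρ)⁻¹ : (PowerSeries ℂ)ˣ).val = LL ρ := rfl

/-- the step sizes -/
noncomputable def st (ε : ℝ) (j : ℕ) : ℝ := ε / 2 ^ (j + 1)

theorem st_pos (ε : ℝ) (hε : 0 < ε) (j : ℕ) : 0 < st ε j := by
  unfold st
  positivity

theorem st_sum (ε : ℝ) (j : ℕ) : ∑ i ∈ Finset.range j, st ε i = ε - ε / 2 ^ j := by
  induction j with
  | zero => simp
  | succ j ih =>
    rw [Finset.sum_range_succ, ih, st, pow_succ]
    field_simp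
    ring

theorem st_sum_le (ε : ℝ) (hε : 0 < ε) (j : ℕ) : ∑ i ∈ Finset.range j, st ε i ≤ ε := by
  rw [st_sum]
  have : 0 < ε / 2 ^ j := by positivity
  linarith

theorem st_le (ε : ℝ) (hε : 0 < ε) (j : ℕ) : st ε j ≤ ε := by
  have h := st_sum_le ε hε (j + 1)
  rw [Finset.sum_range_succ] at h
  have h2 : 0 ≤ ∑ i ∈ Finset.range j, st ε i := Finset.sum_nonneg fun i _ => (st_pos ε hε i).le
  linarith

/-- the resolvents -/
noncomputable def GG (ρ ε : ℝ) (j : ℕ) : PowerSeries ℂ := (1 - ((st ε j : ℝ) : ℂ) • LL ρ)⁻¹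

theorem GG_mul (ρ ε : ℝ) (j : ℕ) : (1 - ((st ε j : ℝ) : ℂ) • LL ρ) * GG ρ ε j = 1 := by
  apply PowerSeries.mul_inv_cancel
  rw [← PowerSeries.coeff_zero_eq_constantCoeff_apply, map_sub, PowerSeries.coeff_smul]
  simp only [PowerSeries.coeff_zero_eq_constantCoeff_apply, LL_const]
  intro h
  have h2 := congrArg Complex.re h
  simp at h2

theorem GG_eq (ρ ε : ℝ) (j : ℕ) : GG ρ ε j - 1 = ((st ε j : ℝ) : ℂ) • (LL ρ * GG ρ ε j) := by
  have h := GG_mul ρ ε j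
  rw [sub_mul, one_mul, smul_mul_assoc] at h
  rw [← h]
  ring

/-- the products of resolvents -/
noncomputable def PP (ρ ε : ℝ) : ℕ → PowerSeries ℂ
  | 0 => 1
  | (j + 1) => GG ρ ε j * PP ρ ε j

variable (n : ℕ) (ρ ε : ℝ) (hε : 0 < ε) (hε1 : ε * Real.pi ≤ 1 / 2)

include hε hε1

theorem GG_norm (j : ℕ) (z : PowerSeries ℂ) :
    (1 - st ε j * Real.pi) * ‖tr n (GG ρ ε j * z)‖ ≤ ‖tr n z‖ := by
  have h1 : st ε j * Real.pi ≤ 1 := by
    have := mul_le_mul_of_nonneg_right (st_le ε hε j) Real.pi_pos.le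
    linarith
  have h2 := LL_res n ρ (st ε j) (st_pos ε hε j).le h1 (GG ρ ε j * z)
  rw [← mul_assoc, GG_mul, one_mul] at h2
  exact h2

theorem sum_half (j : ℕ) : Real.pi * ∑ i ∈ Finset.range j, st ε i ≤ 1 / 2 := by
  have := mul_le_mul_of_nonneg_left (st_sum_le ε hε j) Real.pi_pos.le
  linarith

theorem step_bound (j : ℕ) (w : PowerSeries ℂ) (B : ℝ)
    (hw : ‖tr n w‖ * (1 - Real.pi * ∑ i ∈ Finset.range j, st ε i) ≤ B) :
    ‖tr n (GG ρ ε j * w)‖ * (1 - Real.pi * ∑ i ∈ Finset.range (j + 1), st ε i) ≤ B := by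
  have h1 := GG_norm n ρ ε hε hε1 j w
  have h2 := sum_half ε hε hε1 j
  have h3 := st_pos ε hε j
  have h4 : 0 ≤ ‖tr n (GG ρ ε j * w)‖ := norm_nonneg _
  have h5 : 0 ≤ ∑ i ∈ Finset.range j, st ε i := Finset.sum_nonneg fun i _ => (st_pos ε hε i).le
  have hpi := Real.pi_pos
  rw [Finset.sum_range_succ]
  have h6 : 1 - Real.pi * (∑ i ∈ Finset.range j, st ε i + st ε j) ≤
      (1 - st ε j * Real.pi) * (1 - Real.pi * ∑ i ∈ Finset.range j, st ε i) := by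
    have : 0 ≤ (st ε j * Real.pi) * (Real.pi * ∑ i ∈ Finset.range j, st ε i) := by positivity
    nlinarith
  calc ‖tr n (GG ρ ε j * w)‖ * (1 - Real.pi * (∑ i ∈ Finset.range j, st ε i + st ε j))
      ≤ ‖tr n (GG ρ ε j * w)‖ *
        ((1 - st ε j * Real.pi) * (1 - Real.pi * ∑ i ∈ Finset.range j, st ε i)) :=
        mul_le_mul_of_nonneg_left h6 h4
    _ = ((1 - st ε j * Real.pi) * ‖tr n (GG ρ ε j * w)‖) *
        (1 - Real.pi * ∑ i ∈ Finset.range j, st ε i) := by ring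
    _ ≤ ‖tr n w‖ * (1 - Real.pi * ∑ i ∈ Finset.range j, st ε i) :=
        mul_le_mul_of_nonneg_right h1 (by linarith)
    _ ≤ B := hw

theorem PP_bound (j : ℕ) (z : PowerSeries ℂ) :
    ‖tr n (PP ρ ε j * z)‖ * (1 - Real.pi * ∑ i ∈ Finset.range j, st ε i) ≤ ‖tr n z‖ := by
  induction j with
  | zero => simp [PP]
  | succ j ih =>
    rw [PP, mul_assoc]
    exact step_bound n ρ ε hε hε1 j _ _ ih

theorem two_of (j : ℕ) (a B : ℝ) (ha : 0 ≤ a)
    (h : a * (1 - Real.pi * ∑ i ∈ Finset.range j, st ε i) ≤ B) : a ≤ 2 * B := by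
  have h2 := sum_half ε hε hε1 j
  nlinarith

theorem PP_two (j : ℕ) (z : PowerSeries ℂ) : ‖tr n (PP ρ ε j * z)‖ ≤ 2 * ‖tr n z‖ :=
  two_of ε hε hε1 j _ _ (norm_nonneg _) (PP_bound n ρ ε hε hε1 j z)

/-- the smoothed vector is close to the original one -/
theorem PP_diff (j : ℕ) (y : PowerSeries ℂ) :
    ‖tr n (PP ρ ε j * y - y)‖ ≤ (∑ i ∈ Finset.range j, st ε i) * (2 * ‖tr n (LL ρ * y)‖) := by
  induction j with
  | zero => simp [PP]
  | succ j ih =>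
    have h1 : PP ρ ε (j + 1) * y - y = ((st ε j : ℝ) : ℂ) • (PP ρ ε (j + 1) * (LL ρ * y)) +
        (PP ρ ε j * y - y) := by
      have h2 : PP ρ ε (j + 1) - PP ρ ε j = ((st ε j : ℝ) : ℂ) • (LL ρ * PP ρ ε (j + 1)) := by
        rw [PP, ← mul_assoc, ← smul_mul_assoc, ← GG_eq]
        ring
      have h3 : PP ρ ε (j + 1) = PP ρ ε j + ((st ε j : ℝ) : ℂ) • (LL ρ * PP ρ ε (j + 1)) := by
        rw [← h2]
        ring
      have h4 : ((st ε j : ℝ) : ℂ) • (PP ρ ε (j + 1) * (LL ρ * y)) =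
          (((st ε j : ℝ) : ℂ) • (LL ρ * PP ρ ε (j + 1))) * y := by
        rw [smul_mul_assoc]
        congr 1
        ring
      rw [h4, ← h2]
      ring
    rw [h1, map_add, map_smul, Finset.sum_range_succ, add_mul]
    have h5 := PP_two n ρ ε hε hε1 (j + 1) (LL ρ * y)
    have h6 := norm_add_le (((st ε j : ℝ) : ℂ) • tr n (PP ρ ε (j + 1) * (LL ρ * y)))
      (tr n (PP ρ ε j * y - y))
    rw [norm_smul, Complex.norm_real, Real.norm_eq_abs, abs_of_pos (st_pos ε hε j)] at h6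
    have h7 := mul_le_mul_of_nonneg_left h5 (st_pos ε hε j).le
    linarith

/-- the constants in the bounds for negative powers -/
noncomputable def bk (ε : ℝ) : ℕ → ℝ
  | 0 => 1
  | (k + 1) => 3 / st ε k * bk ε k

omit n ρ hε hε1 in
theorem bk_pos (ε : ℝ) (hε : 0 < ε) (k : ℕ) : 0 < bk ε k := by
  induction k with
  | zero => simp [bk]
  | succ k ih =>
    have := st_pos ε hε k
    rw [bk]
    positivity

theorem LP_base (k : ℕ) (z : PowerSeries ℂ) :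
    ‖tr n (LL ρ ^ k * PP ρ ε k * z)‖ ≤ bk ε k * ‖tr n z‖ := by
  induction k with
  | zero => simp [PP, bk]
  | succ k ih =>
    have h1 : LL ρ ^ (k + 1) * PP ρ ε (k + 1) * z =
        ((st ε k : ℝ) : ℂ)⁻¹ • (GG ρ ε k * (LL ρ ^ k * PP ρ ε k * z) -
          (LL ρ ^ k * PP ρ ε k * z)) := by
      have h2 : GG ρ ε k * (LL ρ ^ k * PP ρ ε k * z) - (LL ρ ^ k * PP ρ ε k * z) =
          (GG ρ ε k - 1) * (LL ρ ^ k * PP ρ ε k * z) := by ring
      rw [h2, GG_eq, smul_mul_assoc, smul_smul, inv_mul_cancel₀, one_smul, PP]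
      · ring
      · exact_mod_cast (st_pos ε hε k).ne'
    have h3 : st ε k * Real.pi ≤ 1 / 2 := by
      have := mul_le_mul_of_nonneg_right (st_le ε hε k) Real.pi_pos.le
      linarith
    have h4 := GG_norm n ρ ε hε hε1 k (LL ρ ^ k * PP ρ ε k * z)
    have h5 : ‖tr n (GG ρ ε k * (LL ρ ^ k * PP ρ ε k * z))‖ ≤
        2 * ‖tr n (LL ρ ^ k * PP ρ ε k * z)‖ := by
      nlinarith [norm_nonneg (tr n (GG ρ ε k * (LL ρ ^ k * PP ρ ε k * z)))]
    rw [h1, map_smul, map_sub, norm_smul, norm_inv, Complex.norm_real, Real.norm_eq_abs,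
      abs_of_pos (st_pos ε hε k), bk]
    have h6 := norm_sub_le (tr n (GG ρ ε k * (LL ρ ^ k * PP ρ ε k * z)))
      (tr n (LL ρ ^ k * PP ρ ε k * z))
    have h7 : ‖tr n (GG ρ ε k * (LL ρ ^ k * PP ρ ε k * z)) -
        tr n (LL ρ ^ k * PP ρ ε k * z)‖ ≤ 3 * (bk ε k * ‖tr n z‖) := by linarith
    have h8 : 0 < (st ε k)⁻¹ := inv_pos.2 (st_pos ε hε k)
    calc (st ε k)⁻¹ * ‖tr n (GG ρ ε k * (LL ρ ^ k * PP ρ ε k * z)) -
        tr n (LL ρ ^ k * PP ρ ε k * z)‖ ≤ (st ε k)⁻¹ * (3 * (bk ε k * ‖tr n z‖)) :=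
          mul_le_mul_of_nonneg_left h7 h8.le
      _ = 3 / st ε k * bk ε k * ‖tr n z‖ := by
          rw [div_eq_mul_inv]
          ring

/-- negative powers on smoothed vectors -/
theorem LP_bound (k j : ℕ) (hkj : k ≤ j) (z : PowerSeries ℂ) :
    ‖tr n (LL ρ ^ k * PP ρ ε j * z)‖ ≤ 2 * (bk ε k * ‖tr n z‖) := by
  apply two_of ε hε hε1 j _ _ (norm_nonneg _)
  induction j, hkj using Nat.le_induction with
  | base =>
    have h1 := LP_base n ρ ε hε hε1 k z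
    have h2 : 0 ≤ ∑ i ∈ Finset.range k, st ε i := Finset.sum_nonneg fun i _ => (st_pos ε hε i).le
    have h3 : 0 ≤ ‖tr n (LL ρ ^ k * PP ρ ε k * z)‖ := norm_nonneg _
    have h4 : 0 ≤ Real.pi * ∑ i ∈ Finset.range k, st ε i := by
      have := Real.pi_pos
      positivity
    nlinarith
  | succ j _ ih =>
    have h1 : LL ρ ^ k * PP ρ ε (j + 1) * z = GG ρ ε j * (LL ρ ^ k * PP ρ ε j * z) := by
      rw [PP]
      ring
    rw [h1]
    exact step_bound n ρ ε hε hε1 j _ _ ih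

end Q88.QN
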