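import Mathlib

/-!
# The limit of a sequence of inner product spaces along an ultrafilter
-/

set_option autoImplicit false

open Filter Topology

namespace Q88.QN

/-- A bounded complex sequence converges along an ultrafilter. -/
theorem exists_ulim (U : Ultrafilter ℕ) (a : ℕ → ℂ) (C : ℝ) (h : ∀ n, ‖a n‖ ≤ C) :
    ∃ l : ℂ, Tendsto a U (𝓝 l) := by
  have hc : IsCompact (Metric.closedBall (0 : ℂ) C) := isCompact_closedBall _ _
  obtain ⟨l, -, hl⟩ := hc.ultrafilter_le_nhds (U.map a) (by
    rw [le_principal_iff]
    show a ⁻¹' (Metric.closedBall (0 : ℂ) C) ∈ U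
    have : a ⁻¹' (Metric.closedBall (0 : ℂ) C) = Set.univ := by
      ext n
      simp [h n]
    rw [this]
    exact Filter.univ_mem)
  exact ⟨l, hl⟩

/-- The limit of a sequence of inner product spaces along an ultrafilter. -/
theorem exists_limit_space {V : Type} [AddCommGroup V] [Module ℂ V] {H : ℕ → Type}
    [∀ n, NormedAddCommGroup (H n)] [∀ n, InnerProductSpace ℂ (H n)]
    (F : ∀ n, V →ₗ[ℂ] H n) (hF : ∀ f, ∃ C : ℝ, ∀ n, ‖F n f‖ ≤ C) (U : Ultrafilter ℕ) :
    ∃ (K : Type) (_ : NormedAddCommGroup K) (_ : InnerProductSpace ℂ K) (_ : CompleteSpace K)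
      (j : V →ₗ[ℂ] K), DenseRange j ∧
        ∀ f g, Tendsto (fun n => inner ℂ (F n f) (F n g)) U (𝓝 (inner ℂ (j f) (j g))) := by
  have hlim : ∀ f g : V, ∃ l : ℂ, Tendsto (fun n => inner ℂ (F n f) (F n g)) U (𝓝 l) := by
    intro f g
    obtain ⟨C1, h1⟩ := hF f
    obtain ⟨C2, h2⟩ := hF g
    apply exists_ulim U _ (C1 * C2)
    intro n
    refine (norm_inner_le_norm _ _).trans ?_
    have h0 : 0 ≤ C1 := (norm_nonneg _).trans (h1 n)
    exact mul_le_mul (h1 n) (h2 n) (norm_nonneg _) h0
  choose I hI using hlim
  let c : PreInnerProductSpace.Core ℂ V :=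
    { inner := I
      conj_inner_symm := by
        intro x y
        refine tendsto_nhds_unique ?_ (hI x y)
        have h1 := (Complex.continuous_conj.tendsto _).comp (hI y x)
        refine h1.congr fun n => ?_
        exact inner_conj_symm _ _
      re_inner_nonneg := by
        intro x
        have h1 := (Complex.continuous_re.tendsto _).comp (hI x x)
        refine ge_of_tendsto' h1 fun n => ?_
        exact inner_self_nonneg (𝕜 := ℂ)
      add_left := by
        intro x y z
        refine tendsto_nhds_unique (hI (x + y) z) ?_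
        refine ((hI x z).add (hI y z)).congr fun n => ?_
        rw [map_add, inner_add_left]
      smul_left := by
        intro x y r
        refine tendsto_nhds_unique (hI (r • x) y) ?_
        refine ((hI x y).const_mul ((starRingEnd ℂ) r)).congr fun n => ?_
        rw [map_smul, inner_smul_left] }
  letI i1 : SeminormedAddCommGroup V := InnerProductSpace.Core.toSeminormedAddCommGroup (c := c)
  letI i2 : InnerProductSpace ℂ V := InnerProductSpace.ofCore c
  refine ⟨UniformSpace.Completion V, inferInstance, inferInstance, inferInstance,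
    (UniformSpace.Completion.toComplₗᵢ (𝕜 := ℂ) (E := V)).toLinearMap, ?_, ?_⟩
  · exact UniformSpace.Completion.denseRange_coe
  · intro f g
    have h2 : inner ℂ ((UniformSpace.Completion.toComplₗᵢ (𝕜 := ℂ) (E := V)).toLinearMap f)
        ((UniformSpace.Completion.toComplₗᵢ (𝕜 := ℂ) (E := V)).toLinearMap g) = I f g := by
      exact UniformSpace.Completion.inner_coe f g
    rw [h2]
    exact hI f g

end Q88.QN
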