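import Mathlib
import Pool.Agent.Q88.QN.Smooth
import Pool.Agent.Q88.QN.Ultra

/-!
# A quasinilpotent operator whose inverse is almost skew-adjoint
-/

set_option autoImplicit false

open Filter Topology

namespace Q88.QN

theorem one_sub_ge_exp (x : ℝ) (hx0 : 0 ≤ x) (hx : x ≤ 1 / 2) : Real.exp (-(2 * x)) ≤ 1 - x := by
  have h1 : 0 < 1 - x := by linarith
  have h2 := Real.add_one_le_exp (x / (1 - x))
  have h3 : x / (1 - x) + 1 = (1 - x)⁻¹ := by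
    field_simp
    ring
  rw [h3] at h2
  have h4 : x / (1 - x) ≤ 2 * x := by
    rw [div_le_iff₀ h1]
    nlinarith
  have h5 := Real.exp_le_exp.2 h4
  rw [Real.exp_neg]
  have h6 : (1 - x)⁻¹ ≤ Real.exp (2 * x) := h2.trans h5
  exact inv_le_of_inv_le₀ h1 h6

theorem T_pow (κ : ℝ) (hκ : 1 ≤ κ) (M : ℝ) (hM : 0 < M) (n : ℕ)
    (hn : 2 * Real.exp (M - κ) ≤ ((n + 2 : ℕ) : ℝ)) (m : ℕ) (z : PowerSeries ℂ) :
    M ^ m * ‖tr (n + 2) ((Tu (rh κ n) (rh_pos κ hκ n)).val ^ m * z)‖ ≤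
      Real.exp (2 * Real.exp (M - κ)) * ‖tr (n + 2) z‖ := by
  set N : ℝ := ((n + 2 : ℕ) : ℝ) with hN
  set c := Real.exp (M - κ) with hc
  have hNpos : 0 < N := by rw [hN]; positivity
  have hcpos : 0 < c := Real.exp_pos _
  have hx0 : 0 < c / N := by positivity
  have hx : c / N ≤ 1 / 2 := by
    rw [div_le_iff₀ hNpos]
    linarith
  have hlog : M ≤ rh κ n + Real.log (1 - (1 - c / N)) := by
    rw [sub_sub_cancel, Real.log_div hcpos.ne' hNpos.ne', hc, Real.log_exp, rh]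
    linarith
  have h1 := LL_grow (n + 2) (rh κ n) (1 - c / N) M (by linarith) (by linarith) hlog hM.le m
    ((Tu (rh κ n) (rh_pos κ hκ n)).val ^ m * z)
  have h2 : LL (rh κ n) ^ m * ((Tu (rh κ n) (rh_pos κ hκ n)).val ^ m * z) = z := by
    rw [← mul_assoc, ← mul_pow, ← Tu_inv (rh κ n) (rh_pos κ hκ n), Units.inv_mul, one_pow, one_mul]
  rw [h2] at h1
  have h3 : Real.exp (-(2 * c)) ≤ (1 - c / N) ^ (n + 2) := by
    have h4 := one_sub_ge_exp (c / N) hx0.le hx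
    have h5 := pow_le_pow_left₀ (Real.exp_pos _).le h4 (n + 2)
    rw [← Real.exp_nat_mul] at h5
    have h6 : ((n + 2 : ℕ) : ℝ) * -(2 * (c / N)) = -(2 * c) := by
      rw [← hN]
      field_simp
    rw [h6] at h5
    exact h5
  have h7 : 0 ≤ ‖tr (n + 2) ((Tu (rh κ n) (rh_pos κ hκ n)).val ^ m * z)‖ := norm_nonneg _
  have h8 : M ^ m * (Real.exp (-(2 * c)) *
      ‖tr (n + 2) ((Tu (rh κ n) (rh_pos κ hκ n)).val ^ m * z)‖) ≤ ‖tr (n + 2) z‖ :=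
    (mul_le_mul_of_nonneg_left (mul_le_mul_of_nonneg_right h3 h7) (by positivity)).trans h1
  have h9 : Real.exp (2 * c) * Real.exp (-(2 * c)) = 1 := by
    rw [← Real.exp_add, add_neg_cancel, Real.exp_zero]
  calc M ^ m * ‖tr (n + 2) ((Tu (rh κ n) (rh_pos κ hκ n)).val ^ m * z)‖
      = (Real.exp (2 * c) * Real.exp (-(2 * c))) *
        (M ^ m * ‖tr (n + 2) ((Tu (rh κ n) (rh_pos κ hκ n)).val ^ m * z)‖) := by
        rw [h9, one_mul]
    _ = Real.exp (2 * c) * (M ^ m * (Real.exp (-(2 * c)) *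
      ‖tr (n + 2) ((Tu (rh κ n) (rh_pos κ hκ n)).val ^ m * z)‖)) := by ring
    _ ≤ Real.exp (2 * c) * ‖tr (n + 2) z‖ :=
        mul_le_mul_of_nonneg_left h8 (Real.exp_pos _).le

/-- the normalised constant vector at stage `n` -/
noncomputable def yv (n : ℕ) : PowerSeries ℂ := (((√((n + 2 : ℕ) : ℝ))⁻¹ : ℝ) : ℂ) • onv

theorem yv_norm (n : ℕ) : ‖tr (n + 2) (yv n)‖ = 1 := by
  have h0 : 0 < √((n + 2 : ℕ) : ℝ) := Real.sqrt_pos.2 (by positivity)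
  rw [yv, map_smul, norm_smul, Complex.norm_real, Real.norm_eq_abs, abs_of_pos (inv_pos.2 h0)]
  have h1 : ‖tr (n + 2) onv‖ = √((n + 2 : ℕ) : ℝ) := by
    rw [← onv_norm, Real.sqrt_sq (norm_nonneg _)]
  rw [h1, inv_mul_cancel₀ h0.ne']

theorem yv_L (κ : ℝ) (hκ : 1 ≤ κ) (n : ℕ) :
    ‖tr (n + 2) (LL (rh κ n) * yv n)‖ ≤ √(2 * κ ^ 2 + 64) := by
  have h0 : 0 < √((n + 2 : ℕ) : ℝ) := Real.sqrt_pos.2 (by positivity)
  have h1 := LL_onv_bound (n + 2) (by omega) κ hκ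
  apply Real.le_sqrt_of_sq_le
  rw [yv, mul_smul_comm, map_smul, norm_smul, Complex.norm_real, Real.norm_eq_abs,
    abs_of_pos (inv_pos.2 h0), mul_pow, inv_pow, Real.sq_sqrt (by positivity)]
  rw [inv_mul_le_iff₀ (by positivity)]
  unfold rh
  linarith

/-- the smoothed vector at stage `n` -/
noncomputable def xv (κ ε : ℝ) (n : ℕ) : PowerSeries ℂ := PP (rh κ n) ε n * yv n

theorem xv_norm (κ : ℝ) (hκ : 1 ≤ κ) (ε : ℝ) (hε : 0 < ε) (hε1 : ε * Real.pi ≤ 1 / 2)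
    (hε2 : ε * (2 * √(2 * κ ^ 2 + 64)) ≤ 1 / 2) (n : ℕ) : 1 / 2 ≤ ‖tr (n + 2) (xv κ ε n)‖ := by
  have h1 := PP_diff (n + 2) (rh κ n) ε hε hε1 n (yv n)
  have h2 := yv_L κ hκ n
  have h3 := st_sum_le ε hε n
  have h4 : 0 ≤ ∑ i ∈ Finset.range n, st ε i := Finset.sum_nonneg fun i _ => (st_pos ε hε i).le
  have h5 : (∑ i ∈ Finset.range n, st ε i) * (2 * ‖tr (n + 2) (LL (rh κ n) * yv n)‖) ≤
      ε * (2 * √(2 * κ ^ 2 + 64)) := by
    apply mul_le_mul h3 (by linarith) (by positivity) hε.le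
  have h6 : ‖tr (n + 2) (yv n)‖ ≤ ‖tr (n + 2) (xv κ ε n)‖ +
      ‖tr (n + 2) (PP (rh κ n) ε n * yv n - yv n)‖ := by
    have : tr (n + 2) (yv n) = tr (n + 2) (xv κ ε n) -
        tr (n + 2) (PP (rh κ n) ε n * yv n - yv n) := by
      rw [map_sub, xv]
      abel
    rw [this]
    exact norm_sub_le _ _
  rw [yv_norm] at h6
  linarith

/-- all powers, positive and negative -/
noncomputable def vv (κ : ℝ) (hκ : 1 ≤ κ) (ε : ℝ) (n : ℕ) (k : ℤ) : PowerSeries ℂ :=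
  ((Tu (rh κ n) (rh_pos κ hκ n)) ^ k : (PowerSeries ℂ)ˣ).val * xv κ ε n

theorem bdd_of_ev (u : ℕ → ℝ) (C : ℝ) (N : ℕ) (h : ∀ n, N ≤ n → u n ≤ C) :
    ∃ C' : ℝ, ∀ n, u n ≤ C' := by
  refine ⟨max C (∑ i ∈ Finset.range N, |u i|), fun n => ?_⟩
  by_cases hn : N ≤ n
  · exact (h n hn).trans (le_max_left _ _)
  · refine le_trans ?_ (le_max_right _ _)
    have h1 : |u n| ≤ ∑ i ∈ Finset.range N, |u i| :=
      Finset.single_le_sum (f := fun i => |u i|) (fun i _ => abs_nonneg _)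
        (Finset.mem_range.2 (by omega))
    exact (le_abs_self _).trans h1

theorem vv_bdd (κ : ℝ) (hκ : 1 ≤ κ) (ε : ℝ) (hε : 0 < ε) (hε1 : ε * Real.pi ≤ 1 / 2) (k : ℤ) :
    ∃ C : ℝ, ∀ n, ‖tr (n + 2) (vv κ hκ ε n k)‖ ≤ C := by
  obtain ⟨m, rfl | rfl⟩ := k.eq_nat_or_neg
  · refine ⟨Real.exp 2 * 2, fun n => ?_⟩
    have h1 := T_pow κ hκ κ (by linarith) n (by
      rw [sub_self, Real.exp_zero]
      push_cast
      have : (0 : ℝ) ≤ n := by positivity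
      linarith) m (xv κ ε n)
    rw [sub_self, Real.exp_zero, mul_one] at h1
    have h2 := PP_two (n + 2) (rh κ n) ε hε hε1 n (yv n)
    rw [yv_norm, mul_one] at h2
    have h3 : ‖tr (n + 2) (vv κ hκ ε n (m : ℤ))‖ ≤
        κ ^ m * ‖tr (n + 2) ((Tu (rh κ n) (rh_pos κ hκ n)).val ^ m * xv κ ε n)‖ := by
      rw [vv, zpow_natCast, Units.val_pow_eq_pow_val]
      exact le_mul_of_one_le_left (norm_nonneg _) (one_le_pow₀ hκ)
    refine h3.trans (h1.trans ?_)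
    exact mul_le_mul_of_nonneg_left h2 (Real.exp_pos _).le
  · apply bdd_of_ev _ (2 * (bk ε m * 1)) m
    intro n hn
    have h1 := LP_bound (n + 2) (rh κ n) ε hε hε1 m n hn (yv n)
    rw [yv_norm] at h1
    rw [vv, zpow_neg, zpow_natCast, ← inv_pow, Units.val_pow_eq_pow_val, Tu_inv, xv, ← mul_assoc]
    exact h1

/-- the maps to the stages -/
noncomputable def Fs (κ : ℝ) (hκ : 1 ≤ κ) (ε : ℝ) (n : ℕ) : (ℤ →₀ ℂ) →ₗ[ℂ] PowerSeries ℂ :=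
  Finsupp.linearCombination ℂ (vv κ hκ ε n)

theorem Fs_single (κ : ℝ) (hκ : 1 ≤ κ) (ε : ℝ) (n : ℕ) (k : ℤ) :
    Fs κ hκ ε n (Finsupp.single k 1) = vv κ hκ ε n k := by
  rw [Fs, Finsupp.linearCombination_single, one_smul]

/-- the shift -/
noncomputable def sh : (ℤ →₀ ℂ) →ₗ[ℂ] (ℤ →₀ ℂ) := Finsupp.lmapDomain ℂ ℂ (fun k => k + 1)

theorem sh_surj : Function.Surjective sh := by
  intro f
  refine ⟨Finsupp.lmapDomain ℂ ℂ (fun k => k - 1) f, ?_⟩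
  rw [sh, Finsupp.lmapDomain_apply, Finsupp.lmapDomain_apply, ← Finsupp.mapDomain_comp]
  have : (fun k : ℤ => k + 1) ∘ (fun k => k - 1) = id := by
    ext k
    simp
  rw [this, Finsupp.mapDomain_id]

theorem Fs_sh (κ : ℝ) (hκ : 1 ≤ κ) (ε : ℝ) (n : ℕ) (f : ℤ →₀ ℂ) :
    Fs κ hκ ε n (sh f) = (Tu (rh κ n) (rh_pos κ hκ n)).val * Fs κ hκ ε n f := by
  induction f using Finsupp.induction_linear with
  | zero => simp
  | add f g hf hg => rw [map_add, map_add, hf, hg, map_add, mul_add]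
  | single k a =>
    rw [sh, Finsupp.lmapDomain_apply, Finsupp.mapDomain_single, Fs,
      Finsupp.linearCombination_single, Finsupp.linearCombination_single, vv, vv, zpow_add_one,
      mul_smul_comm, mul_comm ((Tu (rh κ n) (rh_pos κ hκ n)) ^ k), Units.val_mul, mul_assoc]

theorem Fs_sh_pow (κ : ℝ) (hκ : 1 ≤ κ) (ε : ℝ) (n m : ℕ) (f : ℤ →₀ ℂ) :
    Fs κ hκ ε n ((sh ^ m) f) = (Tu (rh κ n) (rh_pos κ hκ n)).val ^ m * Fs κ hκ ε n f := by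
  induction m with
  | zero => simp
  | succ m ih =>
    rw [pow_succ', Module.End.mul_apply, Fs_sh, ih, pow_succ', mul_assoc]

theorem Fs_bdd (κ : ℝ) (hκ : 1 ≤ κ) (ε : ℝ) (hε : 0 < ε) (hε1 : ε * Real.pi ≤ 1 / 2)
    (f : ℤ →₀ ℂ) : ∃ C : ℝ, ∀ n, ‖((tr (n + 2)) ∘ₗ (Fs κ hκ ε n)) f‖ ≤ C := by
  induction f using Finsupp.induction_linear with
  | zero => exact ⟨0, fun n => by simp⟩
  | add f g hf hg =>
    obtain ⟨C1, h1⟩ := hf
    obtain ⟨C2, h2⟩ := hg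
    refine ⟨C1 + C2, fun n => ?_⟩
    rw [map_add]
    exact (norm_add_le _ _).trans (add_le_add (h1 n) (h2 n))
  | single k a =>
    obtain ⟨C, h⟩ := vv_bdd κ hκ ε hε hε1 k
    refine ⟨‖a‖ * C, fun n => ?_⟩
    rw [LinearMap.comp_apply, Fs, Finsupp.linearCombination_single, map_smul, norm_smul]
    exact mul_le_mul_of_nonneg_left (h n) (norm_nonneg _)

theorem stage_form (κ : ℝ) (hκ : 1 ≤ κ) (ε : ℝ) (n : ℕ) (f g : ℤ →₀ ℂ) :
    ‖inner ℂ (tr (n + 2) (Fs κ hκ ε n f)) (tr (n + 2) (Fs κ hκ ε n (sh g))) +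
      inner ℂ (tr (n + 2) (Fs κ hκ ε n (sh f))) (tr (n + 2) (Fs κ hκ ε n g))‖ ≤
      Real.pi * (‖tr (n + 2) (Fs κ hκ ε n (sh f))‖ * ‖tr (n + 2) (Fs κ hκ ε n (sh g))‖) := by
  have h1 : ∀ f : ℤ →₀ ℂ, Fs κ hκ ε n f = LL (rh κ n) * Fs κ hκ ε n (sh f) := by
    intro f
    rw [Fs_sh, ← mul_assoc, ← Tu_inv (rh κ n) (rh_pos κ hκ n), Units.inv_mul, one_mul]
  have h2 := LL_form (n + 2) (rh κ n) (Fs κ hκ ε n (sh f)) (Fs κ hκ ε n (sh g))
  rw [← h1, ← h1] at h2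
  exact h2

end Q88.QN
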