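import Mathlib

/-!
# A decay lemma and the hypercyclicity criterion
-/

set_option autoImplicit false

open Filter Topology

namespace Q88.QN

variable {X : Type*} [NormedAddCommGroup X] [NormedSpace ℂ X]

/-- `S` is hypercyclic: some orbit is dense. -/
def Hyper (S : X →L[ℂ] X) : Prop := ∃ x : X, Dense (Set.range fun n : ℕ => (S ^ n) x)

theorem decay (S T : X →L[ℂ] X) (hST : Commute S T) (N : Set X) (hS : ∀ z ∈ N, S z ∈ N)
    (hT : ∀ z ∈ N, T z ∈ N) (ε : ℝ) (hε : 0 < ε)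
    (h : ∀ z ∈ N, ‖S z‖ ^ 2 ≤ ‖z‖ ^ 2 - ε * ‖T z‖ ^ 2) (z : X) (hz : z ∈ N) :
    Tendsto (fun n : ℕ => (S ^ n) (T z)) atTop (𝓝 0) := by
  have hmem : ∀ n : ℕ, (S ^ n) z ∈ N := by
    intro n
    induction n with
    | zero => simpa using hz
    | succ n ih =>
      rw [pow_succ', mul_apply_eq_comp]
      exact hS _ ih
  have hcomm : ∀ n : ℕ, (S ^ n) (T z) = T ((S ^ n) z) := by
    intro n
    rw [← mul_apply_eq_comp, (hST.pow_left n).eq, mul_apply_eq_comp]
  set b : ℕ → ℝ := fun n => ‖T ((S ^ n) z)‖ ^ 2 with hb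
  have hanti : Antitone b := by
    apply antitone_nat_of_succ_le
    intro n
    have h1 := h _ (hT _ (hmem n))
    have h2 : T ((S ^ (n + 1)) z) = S (T ((S ^ n) z)) := by
      rw [pow_succ', mul_apply_eq_comp, ← mul_apply_eq_comp T S, ← hST.eq, mul_apply_eq_comp]
    simp only [hb]
    rw [h2]
    have h3 : 0 ≤ ε * ‖T (T ((S ^ n) z))‖ ^ 2 := by positivity
    linarith
  have hsum : ∀ n : ℕ, ‖(S ^ n) z‖ ^ 2 + ε * ∑ i ∈ Finset.range n, b i ≤ ‖z‖ ^ 2 := by
    intro n
    induction n with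
    | zero => simp
    | succ n ih =>
      have h1 := h _ (hmem n)
      have h3 : (S ^ (n + 1)) z = S ((S ^ n) z) := by
        rw [pow_succ', mul_apply_eq_comp]
      rw [Finset.sum_range_succ, h3]
      have h2 : b n = ‖T ((S ^ n) z)‖ ^ 2 := rfl
      rw [h2]
      linarith
  have hbn : ∀ n : ℕ, (n : ℝ) * b n ≤ ‖z‖ ^ 2 / ε := by
    intro n
    rw [le_div_iff₀ hε]
    have h1 := hsum n
    have h2 : (n : ℝ) * b n ≤ ∑ i ∈ Finset.range n, b i := by
      have h3 := Finset.card_nsmul_le_sum (Finset.range n) b (b n) (fun i hi =>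
        hanti (Finset.mem_range.1 hi).le)
      simpa using h3
    have h3 : 0 ≤ ‖(S ^ n) z‖ ^ 2 := by positivity
    nlinarith
  have hb0 : Tendsto b atTop (𝓝 0) := by
    have h1 : Tendsto (fun n : ℕ => (‖z‖ ^ 2 / ε) / (n : ℝ)) atTop (𝓝 0) :=
      tendsto_const_div_atTop_nhds_zero_nat _
    refine tendsto_of_tendsto_of_tendsto_of_le_of_le' tendsto_const_nhds h1 ?_ ?_
    · exact Eventually.of_forall fun n => by simp only [hb]; positivity
    · filter_upwards [eventually_gt_atTop 0] with n hn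
      rw [le_div_iff₀ (by exact_mod_cast hn)]
      have := hbn n
      linarith
  rw [tendsto_zero_iff_norm_tendsto_zero]
  have h1 := hb0.sqrt
  rw [Real.sqrt_zero] at h1
  refine h1.congr fun n => ?_
  rw [hcomm]
  simp only [hb]
  rw [Real.sqrt_sq (norm_nonneg _)]

theorem tendsto_span (A : ℕ → (X →L[ℂ] X)) (D : Set X)
    (h : ∀ x ∈ D, Tendsto (fun n => A n x) atTop (𝓝 0)) :
    ∀ x ∈ Submodule.span ℂ D, Tendsto (fun n => A n x) atTop (𝓝 0) := by
  intro x hx
  induction hx using Submodule.span_induction with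
  | mem x hx => exact h x hx
  | zero => simp
  | add x y _ _ hx hy =>
    have := hx.add hy
    rw [add_zero] at this
    exact this.congr fun n => (map_add _ _ _).symm
  | smul c x _ hx =>
    have := hx.const_smul c
    rw [smul_zero] at this
    exact this.congr fun n => (map_smul _ _ _).symm

/-- The hypercyclicity criterion. -/
theorem hyper_of [CompleteSpace X] [TopologicalSpace.SeparableSpace X] (S R : X →L[ℂ] X)
    (hSR : S * R = 1) (D1 D2 : Set X) (hD1 : Dense (Submodule.span ℂ D1 : Set X))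
    (hD2 : Dense (Submodule.span ℂ D2 : Set X))
    (h1 : ∀ x ∈ D1, Tendsto (fun n : ℕ => (S ^ n) x) atTop (𝓝 0))
    (h2 : ∀ x ∈ D2, Tendsto (fun n : ℕ => (R ^ n) x) atTop (𝓝 0)) : Hyper S := by
  have hSRn : ∀ n : ℕ, S ^ n * R ^ n = 1 := by
    intro n
    induction n with
    | zero => simp
    | succ n ih =>
      rw [pow_succ, pow_succ', mul_assoc, ← mul_assoc S R, hSR, one_mul, ih]
  have h1' := tendsto_span (fun n => S ^ n) D1 h1
  have h2' := tendsto_span (fun n => R ^ n) D2 h2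
  have trans : ∀ U V : Set X, IsOpen U → U.Nonempty → IsOpen V → V.Nonempty →
      ∃ n : ℕ, ∃ x ∈ U, (S ^ n) x ∈ V := by
    intro U V hU hUn hV hVn
    obtain ⟨x, hxU, hx⟩ := hD1.inter_open_nonempty U hU hUn
    obtain ⟨y, hyV, hy⟩ := hD2.inter_open_nonempty V hV hVn
    have t1 : Tendsto (fun n : ℕ => x + (R ^ n) y) atTop (𝓝 x) := by
      have := (h2' y hy).const_add x
      rwa [add_zero] at this
    have t2 : Tendsto (fun n : ℕ => (S ^ n) (x + (R ^ n) y)) atTop (𝓝 y) := by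
      have := (h1' x hx).add_const y
      rw [zero_add] at this
      refine this.congr fun n => ?_
      rw [map_add, ← mul_apply_eq_comp (S ^ n), hSRn, one_apply_eq_self]
    obtain ⟨n, hn1, hn2⟩ := ((t1.eventually (hU.mem_nhds hxU)).and
      (t2.eventually (hV.mem_nhds hyV))).exists
    exact ⟨n, _, hn1, hn2⟩
  have hsc : SecondCountableTopology X := UniformSpace.secondCountable_of_separable X
  have hB := TopologicalSpace.countable_countableBasis X
  have hbasis := TopologicalSpace.isBasis_countableBasis X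
  have hdense : Dense (⋂ V ∈ TopologicalSpace.countableBasis X,
      ⋃ n : ℕ, (fun x => (S ^ n) x) ⁻¹' V) := by
    apply dense_biInter_of_isOpen
    · intro V hV
      apply isOpen_iUnion
      intro n
      exact (hbasis.isOpen hV).preimage (S ^ n).continuous
    · exact hB
    · intro V hV
      rw [dense_iff_inter_open]
      intro U hU hUne
      obtain ⟨n, x, hx1, hx2⟩ := trans U V hU hUne (hbasis.isOpen hV)
        (TopologicalSpace.nonempty_of_mem_countableBasis hV)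
      exact ⟨x, hx1, Set.mem_iUnion.2 ⟨n, hx2⟩⟩
  obtain ⟨y, hy⟩ := hdense.nonempty
  refine ⟨y, ?_⟩
  rw [hbasis.dense_iff]
  intro V hV hVne
  rw [Set.mem_iInter₂] at hy
  obtain ⟨n, hn⟩ := Set.mem_iUnion.1 (hy V hV)
  exact ⟨(S ^ n) y, hn, n, rfl⟩

theorem not_hyper_of_le [Nontrivial X] (S : X →L[ℂ] X) (h : ∀ z, ‖S z‖ ≤ ‖z‖) : ¬ Hyper S := by
  rintro ⟨x, hx⟩
  have h1 : ∀ n : ℕ, ‖(S ^ n) x‖ ≤ ‖x‖ := by
    intro n
    induction n with
    | zero => simp
    | succ n ih =>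
      rw [pow_succ', mul_apply_eq_comp]
      exact (h _).trans ih
  obtain ⟨v, hv⟩ := NormedSpace.exists_lt_norm ℂ X (‖x‖ + 1)
  obtain ⟨_, hn, ⟨n, rfl⟩⟩ := Metric.dense_iff.1 hx v 1 one_pos
  rw [Metric.mem_ball, dist_eq_norm] at hn
  have h2 := norm_sub_norm_le v ((S ^ n) x)
  rw [norm_sub_rev] at h2
  have h3 := h1 n
  linarith

theorem not_hyper_of_ge [Nontrivial X] (S : X →L[ℂ] X) (h : ∀ z, ‖z‖ ≤ ‖S z‖) : ¬ Hyper S := by
  rintro ⟨x, hx⟩
  have h1 : ∀ n : ℕ, ‖x‖ ≤ ‖(S ^ n) x‖ := by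
    intro n
    induction n with
    | zero => simp
    | succ n ih =>
      rw [pow_succ', mul_apply_eq_comp]
      exact ih.trans (h _)
  by_cases hx0 : x = 0
  · subst hx0
    obtain ⟨v, hv⟩ := NormedSpace.exists_lt_norm ℂ X 1
    obtain ⟨_, hn, ⟨n, rfl⟩⟩ := Metric.dense_iff.1 hx v 1 one_pos
    have h3 : ‖(S ^ n) 0 - v‖ < 1 := by
      rw [← dist_eq_norm]
      exact Metric.mem_ball.1 hn
    rw [map_zero, zero_sub, norm_neg] at h3
    linarith
  · obtain ⟨_, hn, ⟨n, rfl⟩⟩ := Metric.dense_iff.1 hx 0 ‖x‖ (norm_pos_iff.2 hx0)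
    rw [Metric.mem_ball, dist_eq_norm, sub_zero] at hn
    have h2 := h1 n
    linarith

end Q88.QN
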