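import Mathlib

/-!
# The quadratic form estimate
-/

set_option autoImplicit false

namespace Q88.QN

variable {X : Type*} [NormedAddCommGroup X] [InnerProductSpace ℂ X]

theorem quad (T : X →L[ℂ] X) (Cb τ G H : ℝ) (hCb : 0 ≤ Cb) (hτ0 : 0 ≤ τ) (hτ1 : τ ≤ 1)
    (hG : 0 ≤ G)
    (hT : ‖T‖ ≤ τ)
    (hform : ∀ x y : X, ‖inner ℂ x (T y) + inner ℂ (T x) y‖ ≤ Cb * (‖T x‖ * ‖T y‖))
    (c : ℂ) (z g : X) (hg : ‖g‖ ≤ G * ‖T z‖) (hg2 : ‖g - c • T z‖ ≤ τ * H * ‖T z‖) :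
    |‖z + T (z + g)‖ ^ 2 - ‖z‖ ^ 2 - 2 * (inner ℂ z (T z)).re - (1 - 2 * c.re) * ‖T z‖ ^ 2| ≤
      τ * (2 * Cb * G + 2 * H + 2 * G + G ^ 2) * ‖T z‖ ^ 2 := by
  set t := ‖T z‖ with ht
  have ht0 : 0 ≤ t := norm_nonneg _
  have hTg : ‖T g‖ ≤ τ * G * t := by
    calc ‖T g‖ ≤ ‖T‖ * ‖g‖ := T.le_opNorm g
      _ ≤ τ * (G * t) := mul_le_mul hT hg (norm_nonneg _) hτ0
      _ = τ * G * t := by ring
  have e1 : ‖z + T (z + g)‖ ^ 2 = ‖z‖ ^ 2 + 2 * (inner ℂ z (T z)).re + 2 * (inner ℂ z (T g)).re +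
      ‖T z + T g‖ ^ 2 := by
    have h1 := norm_add_sq (𝕜 := ℂ) z (T (z + g))
    rw [h1, map_add, inner_add_right]
    simp only [RCLike.re_to_complex, Complex.add_re]
    ring
  have e2 : ‖T z + T g‖ ^ 2 = t ^ 2 + 2 * (inner ℂ (T z) (T g)).re + ‖T g‖ ^ 2 := by
    have h1 := norm_add_sq (𝕜 := ℂ) (T z) (T g)
    rw [h1, ← ht]
    simp only [RCLike.re_to_complex]
  have e3 : (inner ℂ (T z) g) = c * (t : ℂ) ^ 2 + inner ℂ (T z) (g - c • T z) := by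
    rw [inner_sub_right, inner_smul_right, inner_self_eq_norm_sq_to_K]
    have h2 : ((‖T z‖ : ℝ) : ℂ) = (t : ℂ) := rfl
    have h3 : (RCLike.ofReal ‖T z‖ : ℂ) = (t : ℂ) := rfl
    rw [h3]
    ring
  have b1 : ‖inner ℂ z (T g) + inner ℂ (T z) g‖ ≤ Cb * (t * (τ * G * t)) :=
    (hform z g).trans (mul_le_mul_of_nonneg_left
      (mul_le_mul_of_nonneg_left hTg ht0) hCb)
  have b2 : ‖inner ℂ (T z) (g - c • T z)‖ ≤ t * (τ * H * t) :=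
    (norm_inner_le_norm _ _).trans (mul_le_mul_of_nonneg_left hg2 ht0)
  have b3 : ‖inner ℂ (T z) (T g)‖ ≤ t * (τ * G * t) :=
    (norm_inner_le_norm _ _).trans (mul_le_mul_of_nonneg_left hTg ht0)
  have r1 := (Complex.abs_re_le_norm _).trans b1
  have r2 := (Complex.abs_re_le_norm _).trans b2
  have r3 := (Complex.abs_re_le_norm _).trans b3
  rw [Complex.add_re, abs_le] at r1
  rw [abs_le] at r2 r3
  have e4 : (inner ℂ (T z) g).re = c.re * t ^ 2 + (inner ℂ (T z) (g - c • T z)).re := by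
    rw [e3, Complex.add_re]
    congr 1
    have : ((t : ℂ) ^ 2) = ((t ^ 2 : ℝ) : ℂ) := by push_cast; rfl
    rw [this, Complex.re_mul_ofReal]
  have b4 : ‖T g‖ ^ 2 ≤ τ * G ^ 2 * t ^ 2 := by
    calc ‖T g‖ ^ 2 ≤ (τ * G * t) ^ 2 := pow_le_pow_left₀ (norm_nonneg _) hTg 2
      _ = τ * (τ * (G ^ 2 * t ^ 2)) := by ring
      _ ≤ 1 * (τ * (G ^ 2 * t ^ 2)) := mul_le_mul_of_nonneg_right hτ1 (by positivity)
      _ = τ * G ^ 2 * t ^ 2 := by ring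
  have b5 : 0 ≤ ‖T g‖ ^ 2 := by positivity
  rw [e1, e2, abs_le]
  constructor <;> nlinarith [r1.1, r1.2, r2.1, r2.2, r3.1, r3.2, b4, b5, e4]

end Q88.QN
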