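import Mathlib
import Pool.Agent.Q88.QN.Quad
import Pool.Agent.Q88.QN.Dyn

/-!
# Functions of an operator, small inverses, and the norm of `f(T) z`
-/

set_option autoImplicit false

open Filter Topology

namespace Q88.QN

/-- the coefficient sequence of an entire function with value one and derivative one at zero -/
def Ent (a : ℕ → ℂ) : Prop :=
  (∀ r : ℝ, 0 ≤ r → Summable fun n => ‖a n‖ * r ^ n) ∧ a 0 = 1 ∧ a 1 = 1

section

variable {X : Type*} [NormedAddCommGroup X] [InnerProductSpace ℂ X] [CompleteSpace X]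

/-- `f(T) = ∑ aₙ Tⁿ` -/
noncomputable def fop (a : ℕ → ℂ) (T : X →L[ℂ] X) : X →L[ℂ] X := ∑' n, a n • T ^ n

theorem inv_small (A : X →L[ℂ] X) (hA : ‖A‖ ≤ 1 / 2) :
    ∃ R : X →L[ℂ] X, (1 + A) * R = 1 ∧ R * (1 + A) = 1 ∧ (∀ S, Commute S A → Commute S R) ∧
      ∀ x, ‖R x‖ ≤ 2 * ‖x‖ := by
  have h1 : ‖-A‖ < 1 := by
    rw [norm_neg]
    linarith
  set u := Units.oneSub (-A) h1 with hu
  have hu1 : (u : X →L[ℂ] X) = 1 + A := by
    rw [hu, Units.val_oneSub, sub_neg_eq_add]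
  refine ⟨(u⁻¹ : (X →L[ℂ] X)ˣ), ?_, ?_, ?_, ?_⟩
  · rw [← hu1, Units.mul_inv]
  · rw [← hu1, Units.inv_mul]
  · intro S hS
    apply Commute.units_inv_right
    rw [hu1]
    exact (Commute.one_right S).add_right hS
  · intro x
    set y := (↑u⁻¹ : X →L[ℂ] X) x with hy
    have h2 : y + A y = x := by
      have h3 : (1 + A) * (↑u⁻¹ : X →L[ℂ] X) = 1 := by rw [← hu1, Units.mul_inv]
      have h4 := congrArg (fun S : X →L[ℂ] X => S x) h3
      simp only [mul_apply_eq_comp, one_apply_eq_self] at h4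
      rw [← hy] at h4
      rw [← h4]
      simp
    have h5 : ‖A y‖ ≤ 1 / 2 * ‖y‖ :=
      (A.le_opNorm y).trans (mul_le_mul_of_nonneg_right hA (norm_nonneg _))
    have h6 : ‖y‖ ≤ ‖x‖ + ‖A y‖ := by
      have : y = x - A y := by rw [← h2]; abel
      calc ‖y‖ = ‖x - A y‖ := by rw [← this]
        _ ≤ _ := norm_sub_le _ _
    linarith

/-- the sum of the absolute values of the coefficients from the third one on -/
noncomputable def HH (a : ℕ → ℂ) : ℝ := ∑' n, ‖a (n + 3)‖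

theorem HH_nonneg (a : ℕ → ℂ) : 0 ≤ HH a := tsum_nonneg fun n => norm_nonneg _

theorem exists_W (a : ℕ → ℂ) (ha : Ent a) (T : X →L[ℂ] X) (τ : ℝ) (hτ0 : 0 ≤ τ) (hτ1 : τ ≤ 1)
    (hT : ‖T‖ ≤ τ) :
      ∃ W : X →L[ℂ] X, fop a T = 1 + T * (1 + W * T) ∧ (∀ S, Commute S T → Commute S W) ∧
        ‖W‖ ≤ ‖a 2‖ + HH a ∧ ‖W - a 2 • (1 : X →L[ℂ] X)‖ ≤ τ * HH a := by
  obtain ⟨ha1, ha2, ha3⟩ := ha
  have hs := ha1 1 zero_le_one
  simp only [one_pow, mul_one] at hs
  have hs3 : Summable fun n => ‖a (n + 3)‖ := (summable_nat_add_iff 3).2 hs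
  set H := HH a with hH
  have hH0 : 0 ≤ H := HH_nonneg a
  have hpow : ∀ n, ‖T ^ n‖ ≤ max 1 ‖(1 : X →L[ℂ] X)‖ := by
    intro n
    rcases Nat.eq_zero_or_pos n with hn | hn
    · rw [hn, pow_zero]
      exact le_max_right _ _
    · refine (norm_pow_le' T hn).trans ((pow_le_one₀ (norm_nonneg _) (hT.trans hτ1)).trans
        (le_max_left _ _))
  have hone : ‖(1 : X →L[ℂ] X)‖ ≤ 1 := ContinuousLinearMap.norm_id_le
  have hpow1 : ∀ n, ‖T ^ n‖ ≤ 1 := fun n => (hpow n).trans (max_le le_rfl hone)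
  have hb : ∀ (e : ℕ → ℂ) n, ‖e n • T ^ n‖ ≤ ‖e n‖ := by
    intro e n
    rw [norm_smul]
    exact mul_le_of_le_one_right (norm_nonneg _) (hpow1 n)
  have hsT : Summable fun n => a n • T ^ n := Summable.of_norm_bounded hs (hb a)
  have hsT3 : Summable fun n => a (n + 3) • T ^ n :=
    Summable.of_norm_bounded hs3 (hb fun n => a (n + 3))
  set h : X →L[ℂ] X := ∑' n, a (n + 3) • T ^ n with hh
  have hhn : ‖h‖ ≤ H := tsum_of_norm_bounded hs3.hasSum (hb fun n => a (n + 3))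
  have hcomm : ∀ S, Commute S T → Commute S h := by
    intro S hS
    show S * h = h * S
    rw [hh, ← Summable.tsum_mul_left _ hsT3, ← Summable.tsum_mul_right _ hsT3]
    congr 1
    ext1 n
    rw [mul_smul_comm, smul_mul_assoc, (hS.pow_right n).eq]
  refine ⟨a 2 • (1 : X →L[ℂ] X) + T * h, ?_, ?_, ?_, ?_⟩
  · have h1 : fop a T = ∑ i ∈ Finset.range 3, a i • T ^ i + ∑' n, a (n + 3) • T ^ (n + 3) :=
      (hsT.sum_add_tsum_nat_add 3).symm
    have h2 : (∑' n, a (n + 3) • T ^ (n + 3)) = T ^ 3 * h := by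
      rw [hh, ← Summable.tsum_mul_left _ hsT3]
      congr 1
      ext1 n
      rw [mul_smul_comm, ← pow_add, add_comm n 3]
    rw [h1, h2, Finset.sum_range_succ, Finset.sum_range_succ, Finset.sum_range_succ,
      Finset.sum_range_zero, ha2, ha3, pow_zero, one_smul, pow_one, one_smul, zero_add]
    have h3 : h * T = T * h := (hcomm T (Commute.refl T)).symm.eq
    rw [mul_add, mul_one, add_mul, mul_add, smul_mul_assoc, one_mul, mul_smul_comm, mul_assoc T h T,
      h3, pow_three, sq]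
    rw [add_assoc, add_assoc]
    simp only [mul_assoc]
  · intro S hS
    exact ((Commute.one_right S).smul_right _).add_right (hS.mul_right (hcomm S hS))
  · refine (norm_add_le _ _).trans (add_le_add ?_ ?_)
    · rw [norm_smul]
      exact mul_le_of_le_one_right (norm_nonneg _) hone
    · refine (norm_mul_le _ _).trans ?_
      calc ‖T‖ * ‖h‖ ≤ 1 * H := mul_le_mul (hT.trans hτ1) hhn (norm_nonneg _) zero_le_one
        _ = H := one_mul H
  · rw [add_sub_cancel_left]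
    exact (norm_mul_le _ _).trans (mul_le_mul hT hhn (norm_nonneg _) hτ0)

end

end Q88.QN
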