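import Mathlib
import Pool.Agent.Q88.QN.Calc

/-!
# The perturbed operator
-/

set_option autoImplicit false

open Filter Topology

namespace Q88.QN

variable {X : Type*} [NormedAddCommGroup X] [InnerProductSpace ℂ X] [CompleteSpace X]

/-- All the properties of the perturbed operator which are needed. -/
structure Pert (P B T R : X →L[ℂ] X) (c δ η τ : ℝ) : Prop where
  eqT : T = P * R
  commB : Commute B T
  commRB : Commute B R
  commRP : Commute P R
  bR : ∀ x, ‖R x‖ ≤ 2 * ‖x‖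
  nT : ‖T‖ ≤ τ
  surj : ∀ x, R (x + (c : ℂ) • P x + (δ : ℂ) • B (P x)) = x
  form : ∀ x y : X, ‖inner ℂ x (T y) + inner ℂ (T x) y‖ ≤ (η + 2 * (|c| + δ)) * (‖T x‖ * ‖T y‖)
  diag : ∀ x : X, |2 * (inner ℂ x (T x)).re - 2 * c * ‖T x‖ ^ 2 -
    2 * δ * (inner ℂ (B (T x)) (T x)).re| ≤ η * ‖T x‖ ^ 2

theorem exists_pert (P B : X →L[ℂ] X) (c δ η τ : ℝ) (hδ : 0 ≤ δ) (hη : 0 ≤ η) (hτ : 0 ≤ τ)
    (hPB : Commute B P) (hB : ‖B‖ ≤ 1) (hP : ‖P‖ ≤ τ / 2) (hsmall : (|c| + δ) * τ ≤ 1)
    (hform : ∀ x y : X, ‖inner ℂ x (P y) + inner ℂ (P x) y‖ ≤ η * (‖P x‖ * ‖P y‖)) :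
    ∃ T R : X →L[ℂ] X, Pert P B T R c δ η τ := by
  set E : X →L[ℂ] X := (c : ℂ) • (1 : X →L[ℂ] X) + (δ : ℂ) • B with hE
  have hone : ‖(1 : X →L[ℂ] X)‖ ≤ 1 := ContinuousLinearMap.norm_id_le
  have hEn : ‖E‖ ≤ |c| + δ := by
    refine (norm_add_le _ _).trans (add_le_add ?_ ?_)
    · rw [norm_smul, Complex.norm_real, Real.norm_eq_abs]
      exact mul_le_of_le_one_right (abs_nonneg _) hone
    · rw [norm_smul, Complex.norm_real, Real.norm_eq_abs, abs_of_nonneg hδ]
      exact mul_le_of_le_one_right hδ hB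
  have hcE : ∀ S, Commute S B → Commute S E := by
    intro S hS
    exact ((Commute.one_right S).smul_right _).add_right (hS.smul_right _)
  have hEP : Commute E P := (hcE P hPB.symm).symm
  have hA : ‖E * P‖ ≤ 1 / 2 := by
    refine (norm_mul_le _ _).trans ?_
    have h1 : ‖E‖ * ‖P‖ ≤ (|c| + δ) * (τ / 2) :=
      mul_le_mul hEn hP (norm_nonneg _) (by positivity)
    linarith
  obtain ⟨R, hR1, hR2, hR3, hR4⟩ := inv_small (E * P) hA
  have hRP : Commute P R := hR3 P (hEP.symm.mul_right (Commute.refl P))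
  have hRB : Commute B R := hR3 B ((hcE B (Commute.refl B)).mul_right hPB)
  have hRE : Commute E R := hR3 E ((Commute.refl E).mul_right hEP)
  have hEx : ∀ x, E x = (c : ℂ) • x + (δ : ℂ) • B x := fun x => by simp [hE]
  have hTx : ∀ x, (P * R) x = P (R x) := fun x => rfl
  have hdec : ∀ x, x = R x + E ((P * R) x) := by
    intro x
    have h1 := congrArg (fun S : X →L[ℂ] X => S x) hR1
    simp only [mul_apply_eq_comp, one_apply_eq_self] at h1
    have h2 : (1 + E * P) (R x) = R x + E (P (R x)) := by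
      rw [add_apply, one_apply_eq_self, mul_apply_eq_comp]
    rw [h2] at h1
    rw [hTx]
    exact h1.symm
  have hin : ∀ x y : X, inner ℂ x ((P * R) y) + inner ℂ ((P * R) x) y =
      (inner ℂ (R x) (P (R y)) + inner ℂ (P (R x)) (R y)) +
      (inner ℂ (E ((P * R) x)) ((P * R) y) + inner ℂ ((P * R) x) (E ((P * R) y))) := by
    intro x y
    have hx := hdec x
    have hy := hdec y
    have e1 : inner ℂ x ((P * R) y) = inner ℂ (R x) (P (R y)) +
        inner ℂ (E ((P * R) x)) ((P * R) y) := by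
      conv_lhs => rw [hx]
      rw [inner_add_left, hTx y]
    have e2 : inner ℂ ((P * R) x) y = inner ℂ (P (R x)) (R y) +
        inner ℂ ((P * R) x) (E ((P * R) y)) := by
      conv_lhs => rw [hy]
      rw [inner_add_right, hTx x]
    rw [e1, e2]
    ring
  refine ⟨P * R, R, rfl, hPB.mul_right hRB, hRB, hRP, hR4, ?_, ?_, ?_, ?_⟩
  · refine ContinuousLinearMap.opNorm_le_bound _ hτ fun x => ?_
    calc ‖P (R x)‖ ≤ ‖P‖ * ‖R x‖ := P.le_opNorm _
      _ ≤ (τ / 2) * (2 * ‖x‖) := mul_le_mul hP (hR4 x) (norm_nonneg _) (by positivity)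
      _ = τ * ‖x‖ := by ring
  · intro x
    have h1 := congrArg (fun S : X →L[ℂ] X => S x) hR2
    simp only [mul_apply_eq_comp, one_apply_eq_self] at h1
    have h2 : (1 + E * P) x = x + (c : ℂ) • P x + (δ : ℂ) • B (P x) := by
      rw [add_apply, one_apply_eq_self, mul_apply_eq_comp, hEx, add_assoc]
    rw [← h2]
    exact h1
  · intro x y
    rw [hin x y]
    refine (norm_add_le _ _).trans ?_
    have h1 := hform (R x) (R y)
    rw [← hTx, ← hTx] at h1
    have h2 : ‖inner ℂ (E ((P * R) x)) ((P * R) y) + inner ℂ ((P * R) x) (E ((P * R) y))‖ ≤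
        2 * (|c| + δ) * (‖(P * R) x‖ * ‖(P * R) y‖) := by
      refine (norm_add_le _ _).trans ?_
      have h3 : ‖inner ℂ (E ((P * R) x)) ((P * R) y)‖ ≤ (|c| + δ) * ‖(P * R) x‖ * ‖(P * R) y‖ :=
        (norm_inner_le_norm _ _).trans (mul_le_mul_of_nonneg_right
          ((E.le_opNorm _).trans (mul_le_mul_of_nonneg_right hEn (norm_nonneg _)))
          (norm_nonneg _))
      have h4 : ‖inner ℂ ((P * R) x) (E ((P * R) y))‖ ≤ ‖(P * R) x‖ * ((|c| + δ) * ‖(P * R) y‖) :=
        (norm_inner_le_norm _ _).trans (mul_le_mul_of_nonneg_left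
          ((E.le_opNorm _).trans (mul_le_mul_of_nonneg_right hEn (norm_nonneg _)))
          (norm_nonneg _))
      linarith
    rw [← hTx, ← hTx]
    linarith
  · intro x
    have h1 := hform (R x) (R x)
    rw [← hTx, ← pow_two] at h1
    have h2 := congrArg Complex.re (hin x x)
    have hsw : (inner ℂ ((P * R) x) x).re = (inner ℂ x ((P * R) x)).re := by
      rw [← inner_conj_symm, Complex.conj_re]
    have hsw2 : (inner ℂ ((P * R) x) (E ((P * R) x))).re =
        (inner ℂ (E ((P * R) x)) ((P * R) x)).re := by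
      rw [← inner_conj_symm, Complex.conj_re]
    have hE2 : (inner ℂ (E ((P * R) x)) ((P * R) x)).re = c * ‖(P * R) x‖ ^ 2 +
        δ * (inner ℂ (B ((P * R) x)) ((P * R) x)).re := by
      rw [hEx, inner_add_left, inner_smul_left, inner_smul_left, Complex.conj_ofReal,
        Complex.conj_ofReal, Complex.add_re, Complex.re_ofReal_mul, Complex.re_ofReal_mul]
      congr 2
      rw [inner_self_eq_norm_sq_to_K]
      norm_cast
    simp only [Complex.add_re] at h2
    rw [hsw, hsw2, hE2] at h2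
    have h3 := (Complex.abs_re_le_norm _).trans h1
    simp only [Complex.add_re] at h3
    rw [← hTx] at h2
    have h4 : 2 * (inner ℂ x ((P * R) x)).re - 2 * c * ‖(P * R) x‖ ^ 2 -
        2 * δ * (inner ℂ (B ((P * R) x)) ((P * R) x)).re =
        (inner ℂ (R x) ((P * R) x)).re + (inner ℂ ((P * R) x) (R x)).re := by
      linarith
    rw [h4]
    exact h3

end Q88.QN
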