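import Mathlib
import Pool.Agent.Q88.QN.Base

/-!
# The limit operator
-/

set_option autoImplicit false

open Filter Topology

namespace Q88.QN

theorem exists_T (κ : ℝ) (hκ : 1 ≤ κ) :
    ∃ (K : Type) (_ : NormedAddCommGroup K) (_ : InnerProductSpace ℂ K) (_ : CompleteSpace K)
      (T : K →L[ℂ] K), TopologicalSpace.SeparableSpace K ∧ Nontrivial K ∧ DenseRange T ∧
        (∀ x y : K, ‖inner ℂ x (T y) + inner ℂ (T x) y‖ ≤ Real.pi * (‖T x‖ * ‖T y‖)) ∧
        (∀ M : ℝ, 0 < M → ∀ (m : ℕ) (x : K),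
          M ^ m * ‖(T ^ m) x‖ ≤ Real.exp (2 * Real.exp (M - κ)) * ‖x‖) := by
  obtain ⟨ε, hε, hε1, hε2⟩ : ∃ ε : ℝ, 0 < ε ∧ ε * Real.pi ≤ 1 / 2 ∧
      ε * (2 * √(2 * κ ^ 2 + 64)) ≤ 1 / 2 := by
    have hpi := Real.pi_pos
    have hs : 0 < √(2 * κ ^ 2 + 64) := Real.sqrt_pos.2 (by positivity)
    refine ⟨min (1 / (2 * Real.pi)) (1 / (4 * √(2 * κ ^ 2 + 64))), by positivity, ?_, ?_⟩
    · refine (mul_le_mul_of_nonneg_right (min_le_left _ _) hpi.le).trans (le_of_eq ?_)
      field_simp
    · refine (mul_le_mul_of_nonneg_right (min_le_right _ _) (by positivity)).trans (le_of_eq ?_)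
      field_simp
      norm_num
  let F : ∀ n : ℕ, (ℤ →₀ ℂ) →ₗ[ℂ] EuclideanSpace ℂ (Fin (n + 2)) :=
    fun n => (tr (n + 2)) ∘ₗ (Fs κ hκ ε n)
  have hFa : ∀ n f, F n f = tr (n + 2) (Fs κ hκ ε n f) := fun n f => rfl
  obtain ⟨K, i1, i2, i3, j, hj, hin⟩ := exists_limit_space (V := ℤ →₀ ℂ)
    (H := fun n => EuclideanSpace ℂ (Fin (n + 2))) F (Fs_bdd κ hκ ε hε hε1)
    (Filter.hyperfilter ℕ)
  have hU : (Filter.hyperfilter ℕ : Filter ℕ) ≤ atTop := by
    rw [← Nat.cofinite_eq_atTop]
    exact Filter.hyperfilter_le_cofinite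
  have hnorm : ∀ f, Tendsto (fun n => ‖F n f‖) (Filter.hyperfilter ℕ) (𝓝 ‖j f‖) := by
    intro f
    have h1 := ((Complex.continuous_re.tendsto _).comp (hin f f)).sqrt
    have h2 : ∀ {E : Type} [NormedAddCommGroup E] [InnerProductSpace ℂ E] (x : E),
        √(inner ℂ x x : ℂ).re = ‖x‖ := by
      intro E _ _ x
      rw [norm_eq_sqrt_re_inner (𝕜 := ℂ)]
      rfl
    rw [h2] at h1
    refine h1.congr fun n => ?_
    exact h2 _
  have hpow : ∀ M : ℝ, 0 < M → ∀ (m : ℕ) (f : ℤ →₀ ℂ),
      M ^ m * ‖j ((sh ^ m) f)‖ ≤ Real.exp (2 * Real.exp (M - κ)) * ‖j f‖ := by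
    intro M hM m f
    refine le_of_tendsto_of_tendsto ((hnorm ((sh ^ m) f)).const_mul _)
      ((hnorm f).const_mul _) ?_
    have h1 : ∀ᶠ n : ℕ in atTop, 2 * Real.exp (M - κ) ≤ ((n + 2 : ℕ) : ℝ) := by
      obtain ⟨N, hN⟩ := exists_nat_ge (2 * Real.exp (M - κ))
      filter_upwards [eventually_ge_atTop N] with n hn
      have : (N : ℝ) ≤ n := by exact_mod_cast hn
      push_cast
      linarith
    filter_upwards [h1.filter_mono hU] with n hn
    rw [hFa, hFa, Fs_sh_pow]
    exact T_pow κ hκ M hM n hn m _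
  have hb : ∀ f, ‖j (sh f)‖ ≤ (Real.exp 2 / κ) * ‖j f‖ := by
    intro f
    have h1 := hpow κ (by linarith) 1 f
    rw [pow_one, pow_one, sub_self, Real.exp_zero, mul_one] at h1
    rw [div_mul_eq_mul_div, le_div_iff₀ (by linarith)]
    linarith
  have hbd : ∃ C : ℝ, ∀ f, ‖(j ∘ₗ sh) f‖ ≤ C * ‖j f‖ := ⟨_, hb⟩
  let T : K →L[ℂ] K := (j ∘ₗ sh).extendOfNorm j
  have hT : ∀ f, T (j f) = j (sh f) := fun f => LinearMap.extendOfNorm_eq hj hbd f
  have hTp : ∀ (m : ℕ) f, (T ^ m) (j f) = j ((sh ^ m) f) := by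
    intro m
    induction m with
    | zero => intro f; simp
    | succ m ih =>
      intro f
      rw [pow_succ', pow_succ', mul_apply_eq_comp, ih, hT, Module.End.mul_apply]
  refine ⟨K, i1, i2, i3, T, ?_, ?_, ?_, ?_, ?_⟩
  · -- separable
    have h1 : TopologicalSpace.IsSeparable (Set.range fun k : ℤ => j (Finsupp.single k 1)) :=
      (Set.countable_range _).isSeparable
    have h2 := (h1.span (R := ℂ)).closure
    have h3 : Set.range j ⊆ (Submodule.span ℂ (Set.range fun k : ℤ => j (Finsupp.single k 1)) :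
        Set K) := by
      rintro _ ⟨f, rfl⟩
      induction f using Finsupp.induction_linear with
      | zero => rw [map_zero]; exact Submodule.zero_mem _
      | add f g hf hg => rw [map_add]; exact Submodule.add_mem _ hf hg
      | single k a =>
        have h4 : Finsupp.single k a = a • Finsupp.single k (1 : ℂ) := by
          rw [Finsupp.smul_single, smul_eq_mul, mul_one]
        rw [h4, map_smul]
        exact Submodule.smul_mem _ _ (Submodule.subset_span ⟨k, rfl⟩)
    have h5 : closure (Submodule.span ℂ (Set.range fun k : ℤ => j (Finsupp.single k 1)) :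
        Set K) = Set.univ := (hj.mono h3).closure_eq
    rw [h5] at h2
    exact TopologicalSpace.isSeparable_univ_iff.1 h2
  · -- nontrivial
    refine ⟨⟨j (Finsupp.single 0 1), 0, ?_⟩⟩
    intro h0
    have h1 : 1 / 2 ≤ ‖j (Finsupp.single 0 1)‖ := by
      refine ge_of_tendsto' (hnorm (Finsupp.single 0 1)) fun n => ?_
      rw [hFa, Fs_single, vv, zpow_zero, Units.val_one, one_mul]
      exact xv_norm κ hκ ε hε hε1 hε2 n
    rw [h0, norm_zero] at h1
    norm_num at h1
  · -- dense range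
    have h1 : Set.range j ⊆ Set.range T := by
      rintro _ ⟨f, rfl⟩
      obtain ⟨g, rfl⟩ := sh_surj f
      exact ⟨j g, hT g⟩
    exact hj.mono h1
  · -- form bound
    intro x y
    refine hj.induction_on₂ (p := fun x y => ‖inner ℂ x (T y) + inner ℂ (T x) y‖ ≤
      Real.pi * (‖T x‖ * ‖T y‖)) ?_ ?_ x y
    · apply isClosed_le
      · exact ((continuous_fst.inner (T.continuous.comp continuous_snd)).add
          ((T.continuous.comp continuous_fst).inner continuous_snd)).norm
      · exact continuous_const.mul ((T.continuous.comp continuous_fst).norm.mul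
          (T.continuous.comp continuous_snd).norm)
    · intro f g
      rw [hT, hT]
      refine le_of_tendsto_of_tendsto' ((hin f (sh g)).add (hin (sh f) g)).norm
        (((hnorm (sh f)).mul (hnorm (sh g))).const_mul _) fun n => ?_
      exact stage_form κ hκ ε n f g
  · -- powers
    intro M hM m x
    refine hj.induction_on (p := fun x => M ^ m * ‖(T ^ m) x‖ ≤
      Real.exp (2 * Real.exp (M - κ)) * ‖x‖) x ?_ ?_
    · apply isClosed_le
      · exact continuous_const.mul ((T ^ m).continuous.norm)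
      · exact continuous_const.mul continuous_norm
    · intro f
      rw [hTp]
      exact hpow M hM m f

end Q88.QN
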