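import Mathlib
import Pool.Agent.Q88.QN.Op

set_option autoImplicit false

open Filter Topology

namespace Q88.QN

/-- a dense-range operator with small norm, small real form relative to `‖T x‖ ‖T y‖`, and super fast
decay of powers -/
theorem exists_T0 (τ η : ℝ) (hτ : 0 < τ) (hη : 0 < η) :
    ∃ (K : Type) (_ : NormedAddCommGroup K) (_ : InnerProductSpace ℂ K) (_ : CompleteSpace K)
      (T : K →L[ℂ] K), TopologicalSpace.SeparableSpace K ∧ Nontrivial K ∧ DenseRange T ∧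
        (∀ x y : K, ‖inner ℂ x (T y) + inner ℂ (T x) y‖ ≤ η * (‖T x‖ * ‖T y‖)) ∧
        ‖T‖ ≤ τ ∧
        (∀ M : ℝ, 0 < M → ∃ C : ℝ, 0 ≤ C ∧ ∀ (m : ℕ) (x : K), M ^ m * ‖(T ^ m) x‖ ≤ C * ‖x‖) := by
  obtain ⟨μ, hμ, hμη⟩ : ∃ μ : ℝ, 0 < μ ∧ Real.pi / μ ≤ η :=
    ⟨Real.pi / η, by have := Real.pi_pos; positivity, le_of_eq (by
      have := Real.pi_pos
      field_simp)⟩
  obtain ⟨κ, hκ, hκτ⟩ : ∃ κ : ℝ, 1 ≤ κ ∧ μ * (Real.exp 2 / κ) ≤ τ := by
    refine ⟨max 1 (μ * Real.exp 2 / τ), le_max_left _ _, ?_⟩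
    have h1 : 0 < max 1 (μ * Real.exp 2 / τ) := lt_of_lt_of_le one_pos (le_max_left _ _)
    rw [mul_div_assoc', div_le_iff₀ h1]
    have h2 := le_max_right 1 (μ * Real.exp 2 / τ)
    rw [div_le_iff₀ hτ] at h2
    linarith
  obtain ⟨K, i1, i2, i3, T, hsep, hnt, hdr, hform, hpow⟩ := exists_T κ hκ
  have hκ0 : 0 < κ := by linarith
  have hμc : (μ : ℂ) ≠ 0 := by exact_mod_cast hμ.ne'
  refine ⟨K, i1, i2, i3, (μ : ℂ) • T, hsep, hnt, ?_, ?_, ?_, ?_⟩
  · have h1 : (⇑((μ : ℂ) • T) : K → K) = (fun x => (μ : ℂ) • x) ∘ T := by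
      ext x
      simp
    rw [h1]
    refine DenseRange.comp ?_ hdr (continuous_const_smul _)
    apply Function.Surjective.denseRange
    intro x
    exact ⟨(μ : ℂ)⁻¹ • x, by
      show (μ : ℂ) • ((μ : ℂ)⁻¹ • x) = x
      rw [smul_smul, mul_inv_cancel₀ hμc, one_smul]⟩
  · intro x y
    have h1 : inner ℂ x (((μ : ℂ) • T) y) + inner ℂ (((μ : ℂ) • T) x) y =
        (μ : ℂ) * (inner ℂ x (T y) + inner ℂ (T x) y) := by
      rw [_root_.smul_apply, _root_.smul_apply, inner_smul_right,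
        inner_smul_left, Complex.conj_ofReal]
      ring
    have h2 : ∀ z, ‖((μ : ℂ) • T) z‖ = μ * ‖T z‖ := by
      intro z
      rw [_root_.smul_apply, norm_smul, Complex.norm_real, Real.norm_eq_abs,
        abs_of_pos hμ]
    rw [h1, norm_mul, Complex.norm_real, Real.norm_eq_abs, abs_of_pos hμ, h2, h2]
    calc μ * ‖inner ℂ x (T y) + inner ℂ (T x) y‖ ≤ μ * (Real.pi * (‖T x‖ * ‖T y‖)) :=
          mul_le_mul_of_nonneg_left (hform x y) hμ.le
      _ = (Real.pi / μ) * (μ * ‖T x‖ * (μ * ‖T y‖)) := by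
          field_simp
      _ ≤ η * (μ * ‖T x‖ * (μ * ‖T y‖)) := by
          apply mul_le_mul_of_nonneg_right hμη
          positivity
  · rw [norm_smul, Complex.norm_real, Real.norm_eq_abs, abs_of_pos hμ]
    refine le_trans (mul_le_mul_of_nonneg_left ?_ hμ.le) hκτ
    refine ContinuousLinearMap.opNorm_le_bound _ (by positivity) fun x => ?_
    have h1 := hpow κ hκ0 1 x
    rw [sub_self, Real.exp_zero, mul_one, pow_one, pow_one] at h1
    rw [div_mul_eq_mul_div, le_div_iff₀ hκ0]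
    linarith
  · intro M hM
    refine ⟨Real.exp (2 * Real.exp (M * μ - κ)), (Real.exp_pos _).le, fun m x => ?_⟩
    have h1 := hpow (M * μ) (by positivity) m x
    rw [smul_pow, _root_.smul_apply, norm_smul, norm_pow, Complex.norm_real,
      Real.norm_eq_abs, abs_of_pos hμ]
    rw [mul_pow] at h1
    linarith

end Q88.QN
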