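import Mathlib
import Pool.Agent.Q88.QN.Pert
import Pool.Agent.Q88.QN.Dens
import Pool.Agent.Q88.QN.T0

/-!
# The main theorem
-/

set_option autoImplicit false

open Filter Topology

namespace Q88.QN

section

variable {X : Type*} [NormedAddCommGroup X] [InnerProductSpace ℂ X] [CompleteSpace X]

theorem norm_fop {P B T R : X →L[ℂ] X} {c δ η τ : ℝ} (h : Pert P B T R c δ η τ)
    (hδ : 0 ≤ δ) (hη : 0 ≤ η) (hη1 : η ≤ 1) (hτ0 : 0 ≤ τ) (hτ1 : τ ≤ 1) (a : ℕ → ℂ) (W : X →L[ℂ] X)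
    (G H : ℝ) (hG : 0 ≤ G)
    (hW1 : fop a T = 1 + T * (1 + W * T)) (hW3 : ‖W‖ ≤ G)
    (hW4 : ‖W - a 2 • (1 : X →L[ℂ] X)‖ ≤ τ * H) (z : X) :
    |‖fop a T z‖ ^ 2 - ‖z‖ ^ 2 - (2 * c + 1 - 2 * (a 2).re) * ‖T z‖ ^ 2 -
        2 * δ * (inner ℂ (B (T z)) (T z)).re| ≤
      (η + τ * (2 * (1 + 2 * (|c| + δ)) * G + 2 * H + 2 * G + G ^ 2)) * ‖T z‖ ^ 2 := by
  have h1 := quad T (1 + 2 * (|c| + δ)) τ G H (by positivity) hτ0 hτ1 hG h.nT
    (fun x y => (h.form x y).trans (by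
      apply mul_le_mul_of_nonneg_right _ (by positivity)
      linarith)) (a 2) z (W (T z))
    ((W.le_opNorm _).trans (mul_le_mul_of_nonneg_right hW3 (norm_nonneg _)))
    (by
      have h2 : W (T z) - a 2 • T z = (W - a 2 • (1 : X →L[ℂ] X)) (T z) := by
        rw [sub_apply, smul_apply, one_apply_eq_self]
      rw [h2]
      exact (ContinuousLinearMap.le_opNorm _ _).trans
        (mul_le_mul_of_nonneg_right hW4 (norm_nonneg _)))
  have h2 := h.diag z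
  have h3 : fop a T z = z + T (z + W (T z)) := by
    rw [hW1, add_apply, one_apply_eq_self, mul_apply_eq_comp, add_apply, one_apply_eq_self,
      mul_apply_eq_comp]
  rw [h3]
  rw [abs_le] at h1 h2 ⊢
  constructor
  · nlinarith [h1.1, h2.1]
  · nlinarith [h1.2, h2.2]

theorem hyper_fop [TopologicalSpace.SeparableSpace X] {P B T R : X →L[ℂ] X} {c δ η τ : ℝ}
    (h : Pert P B T R c δ η τ)
    (hδ : 0 < δ) (hη : 0 ≤ η) (hη1 : η ≤ 1) (hτ0 : 0 ≤ τ) (hτ1 : τ ≤ 1) (a : ℕ → ℂ) (W : X →L[ℂ] X)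
    (G H : ℝ) (hG : 0 ≤ G)
    (hW1 : fop a T = 1 + T * (1 + W * T)) (hW2 : ∀ S, Commute S T → Commute S W) (hW3 : ‖W‖ ≤ G)
    (hW4 : ‖W - a 2 • (1 : X →L[ℂ] X)‖ ≤ τ * H) (hc : c = (a 2).re - 1 / 2)
    (hsm : η + τ * (2 * (1 + 2 * (|c| + δ)) * G + 2 * H + 2 * G + G ^ 2) ≤ δ / 2)
    (hsm2 : τ * (1 + G) ≤ 1 / 2)
    (hD1 : Dense (Submodule.span ℂ {y : X | ∃ β : ℝ, 1 / 2 < β ∧ ∃ z, B z = (β : ℂ) • z ∧ T z = y} :
      Set X))
    (hD2 : Dense (Submodule.span ℂ {y : X | ∃ β : ℝ, β < -(1 / 2) ∧ ∃ z, B z = (β : ℂ) • z ∧ T z = y} :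
      Set X)) : Hyper (fop a T) := by
  have hTW : ‖T * (1 + W * T)‖ ≤ 1 / 2 := by
    refine le_trans ?_ hsm2
    refine (norm_mul_le _ _).trans (mul_le_mul h.nT ?_ (norm_nonneg _) hτ0)
    refine (norm_add_le _ _).trans (add_le_add ContinuousLinearMap.norm_id_le ?_)
    refine (norm_mul_le _ _).trans ?_
    calc ‖W‖ * ‖T‖ ≤ G * 1 := mul_le_mul hW3 (h.nT.trans hτ1) (norm_nonneg _) hG
      _ = G := mul_one G
  obtain ⟨Q, hQ1, hQ2, hQ3, hQ4⟩ := inv_small (T * (1 + W * T)) hTW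
  rw [← hW1] at hQ1 hQ2
  have hTW' : Commute T W := hW2 T (Commute.refl T)
  have hcT : ∀ S, Commute S T → Commute S (T * (1 + W * T)) := fun S hS =>
    hS.mul_right ((Commute.one_right S).add_right ((hW2 S hS).mul_right hS))
  have hcF : ∀ S, Commute S T → Commute S (fop a T) := by
    intro S hS
    rw [hW1]
    exact (Commute.one_right S).add_right (hcT S hS)
  have hcQ : ∀ S, Commute S T → Commute S Q := fun S hS => hQ3 S (hcT S hS)
  have key : ∀ (β : ℝ) (z : X), B z = (β : ℂ) • z →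
      |‖fop a T z‖ ^ 2 - ‖z‖ ^ 2 - 2 * δ * β * ‖T z‖ ^ 2| ≤ δ / 2 * ‖T z‖ ^ 2 := by
    intro β z hz
    have h1 := norm_fop h hδ.le hη hη1 hτ0 hτ1 a W G H hG hW1 hW3 hW4 z
    have h2 : B (T z) = (β : ℂ) • T z := by
      rw [← mul_apply_eq_comp, h.commB.eq, mul_apply_eq_comp, hz, map_smul]
    have h3 : (inner ℂ (B (T z)) (T z)).re = β * ‖T z‖ ^ 2 := by
      rw [h2, inner_smul_left, Complex.conj_ofReal, Complex.re_ofReal_mul,
        inner_self_eq_norm_sq_to_K]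
      norm_cast
    have h4 : 2 * c + 1 - 2 * (a 2).re = 0 := by
      rw [hc]
      ring
    rw [h3, h4, zero_mul, sub_zero] at h1
    have h5 : 2 * δ * β * ‖T z‖ ^ 2 = 2 * δ * (β * ‖T z‖ ^ 2) := by ring
    rw [h5]
    exact h1.trans (mul_le_mul_of_nonneg_right hsm (by positivity))
  have hFn : ∀ x, ‖fop a T x‖ ≤ 2 * ‖x‖ := by
    intro x
    rw [hW1, add_apply, one_apply_eq_self]
    have h1 := (T * (1 + W * T)).le_opNorm x
    have h2 : ‖T * (1 + W * T)‖ * ‖x‖ ≤ 1 / 2 * ‖x‖ :=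
      mul_le_mul_of_nonneg_right hTW (norm_nonneg _)
    have h3 := norm_add_le x ((T * (1 + W * T)) x)
    have h4 := norm_nonneg x
    linarith
  have hinv : ∀ (S : X →L[ℂ] X), Commute S B → ∀ (β : ℝ) (z : X), B z = (β : ℂ) • z →
      B (S z) = (β : ℂ) • S z := by
    intro S hS β z hz
    rw [← mul_apply_eq_comp, ← hS.eq, mul_apply_eq_comp, hz, map_smul]
  refine hyper_of (fop a T) Q hQ1 _ _ hD2 hD1 ?_ ?_
  · rintro _ ⟨β, hβ, z, hz, rfl⟩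
    refine decay (fop a T) T (hcF T (Commute.refl T)).symm {z | B z = (β : ℂ) • z}
      (fun z hz => hinv _ (hcF B h.commB).symm β z hz) (fun z hz => hinv _ h.commB.symm β z hz)
      (δ / 2) (by positivity) ?_ z hz
    intro z hz
    have h1 := (abs_le.1 (key β z hz)).2
    have h2 : 2 * δ * β * ‖T z‖ ^ 2 ≤ - δ * ‖T z‖ ^ 2 := by
      apply mul_le_mul_of_nonneg_right _ (by positivity)
      nlinarith
    nlinarith
  · rintro _ ⟨β, hβ, z, hz, rfl⟩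
    refine decay Q T (hcQ T (Commute.refl T)).symm {z | B z = (β : ℂ) • z}
      (fun z hz => hinv _ (hcQ B h.commB).symm β z hz) (fun z hz => hinv _ h.commB.symm β z hz)
      (δ / 8) (by positivity) ?_ z hz
    intro z hz
    have hFQ : fop a T (Q z) = z := by
      rw [← mul_apply_eq_comp, hQ1, one_apply_eq_self]
    have h1 := (abs_le.1 (key β (Q z) (hinv _ (hcQ B h.commB).symm β z hz))).1
    rw [hFQ] at h1
    have h3 : fop a T (T (Q z)) = T z := by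
      rw [← mul_apply_eq_comp, ← (hcF T (Commute.refl T)).eq, mul_apply_eq_comp, hFQ]
    have h4 := hFn (T (Q z))
    rw [h3] at h4
    have h5 : ‖T z‖ ^ 2 ≤ 4 * ‖T (Q z)‖ ^ 2 := by
      have := pow_le_pow_left₀ (norm_nonneg _) h4 2
      linarith [mul_pow (2 : ℝ) ‖T (Q z)‖ 2]
    have h2 : δ * ‖T (Q z)‖ ^ 2 ≤ 2 * δ * β * ‖T (Q z)‖ ^ 2 := by
      apply mul_le_mul_of_nonneg_right _ (by positivity)
      nlinarith
    nlinarith

theorem not_hyper_fop [Nontrivial X] {P B T R : X →L[ℂ] X} {c δ η τ : ℝ}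
    (h : Pert P B T R c δ η τ) (hB : ‖B‖ ≤ 1)
    (hδ : 0 < δ) (hη : 0 ≤ η) (hη1 : η ≤ 1) (hτ0 : 0 ≤ τ) (hτ1 : τ ≤ 1) (b : ℕ → ℂ) (W : X →L[ℂ] X)
    (G H : ℝ) (hG : 0 ≤ G)
    (hW1 : fop b T = 1 + T * (1 + W * T)) (hW3 : ‖W‖ ≤ G)
    (hW4 : ‖W - b 2 • (1 : X →L[ℂ] X)‖ ≤ τ * H)
    (hsm : η + τ * (2 * (1 + 2 * (|c| + δ)) * G + 2 * H + 2 * G + G ^ 2) ≤ δ / 2)
    (hbig : 8 * δ ≤ |2 * c + 1 - 2 * (b 2).re|) : ¬ Hyper (fop b T) := by
  have key : ∀ z : X, |‖fop b T z‖ ^ 2 - ‖z‖ ^ 2 - (2 * c + 1 - 2 * (b 2).re) * ‖T z‖ ^ 2| ≤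
      8 * δ * ‖T z‖ ^ 2 := by
    intro z
    have h1 := norm_fop h hδ.le hη hη1 hτ0 hτ1 b W G H hG hW1 hW3 hW4 z
    have h2 : |(inner ℂ (B (T z)) (T z)).re| ≤ ‖T z‖ ^ 2 := by
      refine (Complex.abs_re_le_norm _).trans ((norm_inner_le_norm _ _).trans ?_)
      have h3 : ‖B (T z)‖ ≤ 1 * ‖T z‖ :=
        (B.le_opNorm _).trans (mul_le_mul_of_nonneg_right hB (norm_nonneg _))
      nlinarith [norm_nonneg (T z)]
    have h3 : (η + τ * (2 * (1 + 2 * (|c| + δ)) * G + 2 * H + 2 * G + G ^ 2)) * ‖T z‖ ^ 2 ≤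
        δ / 2 * ‖T z‖ ^ 2 := mul_le_mul_of_nonneg_right hsm (by positivity)
    have h4 := mul_le_mul_of_nonneg_left (abs_le.1 h2).1 hδ.le
    have h5 := mul_le_mul_of_nonneg_left (abs_le.1 h2).2 hδ.le
    have h6 : 0 ≤ δ * ‖T z‖ ^ 2 := by positivity
    rw [abs_le] at h1 ⊢
    constructor
    · nlinarith [h1.1]
    · nlinarith [h1.2]
  rcases le_or_gt 0 (2 * c + 1 - 2 * (b 2).re) with hs | hs
  · rw [abs_of_nonneg hs] at hbig
    apply not_hyper_of_ge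
    intro z
    have h1 := (abs_le.1 (key z)).1
    have h2 := mul_le_mul_of_nonneg_right hbig (by positivity : 0 ≤ ‖T z‖ ^ 2)
    apply le_of_sq_le_sq _ (norm_nonneg _)
    linarith
  · rw [abs_of_neg hs] at hbig
    apply not_hyper_of_le
    intro z
    have h1 := (abs_le.1 (key z)).2
    have h2 := mul_le_mul_of_nonneg_right hbig (by positivity : 0 ≤ ‖T z‖ ^ 2)
    apply le_of_sq_le_sq _ (norm_nonneg _)
    linarith

end

end Q88.QN
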