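import Mathlib
import Pool.Agent.Q88.QN.Main

/-!
# Two functions of one quasinilpotent operator, one hypercyclic and the other not
-/

set_option autoImplicit false

open Filter Topology

namespace Q88.QN

theorem params (c δ G H G' H' : ℝ) (hδ : 0 < δ) (hG : 0 ≤ G) (hH : 0 ≤ H) (hG' : 0 ≤ G')
    (hH' : 0 ≤ H') : ∃ η τ : ℝ, 0 < η ∧ η ≤ 1 ∧ 0 < τ ∧ τ ≤ 1 ∧ (|c| + δ) * τ ≤ 1 ∧
      τ * (1 + G) ≤ 1 / 2 ∧
      η + τ * (2 * (1 + 2 * (|c| + δ)) * G + 2 * H + 2 * G + G ^ 2) ≤ δ / 2 ∧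
      η + τ * (2 * (1 + 2 * (|c| + δ)) * G' + 2 * H' + 2 * G' + G' ^ 2) ≤ δ / 2 := by
  have key : ∀ M : ℝ, 0 < M → ∀ A r : ℝ, A * r ≤ M → 0 < r → 1 / M * A ≤ 1 / r := by
    intro M hM A r h hr
    rw [one_div_mul_eq_div, div_le_div_iff₀ hM hr]
    linarith
  set U := 2 * (1 + 2 * (|c| + δ)) * G + 2 * H + 2 * G + G ^ 2 with hU
  set V := 2 * (1 + 2 * (|c| + δ)) * G' + 2 * H' + 2 * G' + G' ^ 2 with hV
  have hU0 : 0 ≤ U := by positivity
  have hV0 : 0 ≤ V := by positivity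
  set M := 1 + (|c| + δ) + 2 * (1 + G) + U * (4 / δ) + V * (4 / δ) with hM
  have hM0 : 0 < M := by positivity
  have h4 : 0 < 4 / δ := by positivity
  have hUd : 0 ≤ U * (4 / δ) := by positivity
  have hVd : 0 ≤ V * (4 / δ) := by positivity
  have hc : 0 ≤ |c| := abs_nonneg c
  refine ⟨min 1 (δ / 4), 1 / M, by positivity, min_le_left _ _, by positivity, ?_, ?_, ?_, ?_, ?_⟩
  · rw [div_le_one hM0]
    linarith
  · have := key M hM0 (|c| + δ) 1 (by linarith) one_pos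
    linarith
  · have := key M hM0 (1 + G) 2 (by linarith) two_pos
    linarith
  · have h1 := key M hM0 U (4 / δ) (by linarith) h4
    have h2 : 1 / (4 / δ) = δ / 4 := by rw [one_div_div]
    have h3 := min_le_right 1 (δ / 4)
    linarith
  · have h1 := key M hM0 V (4 / δ) (by linarith) h4
    have h2 : 1 / (4 / δ) = δ / 4 := by rw [one_div_div]
    have h3 := min_le_right 1 (δ / 4)
    linarith

theorem root_tendsto (u : ℕ → ℝ) (hu : ∀ n, 0 ≤ u n)
    (h : ∀ M : ℝ, 0 < M → ∃ C : ℝ, 0 ≤ C ∧ ∀ n, M ^ n * u n ≤ C) :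
    Tendsto (fun n : ℕ => (u n) ^ (1 / (n : ℝ))) atTop (𝓝 0) := by
  rw [Metric.tendsto_atTop]
  intro ε hε
  obtain ⟨C, hC0, hC⟩ := h (4 / ε) (by positivity)
  have hlim : Tendsto (fun n : ℕ => (C + 1) ^ (1 / (n : ℝ))) atTop (𝓝 1) := by
    have h1 : Tendsto (fun n : ℕ => 1 / (n : ℝ)) atTop (𝓝 0) := tendsto_one_div_atTop_nhds_zero_nat
    have h2 := (Real.continuous_const_rpow (by positivity : C + 1 ≠ 0)).tendsto 0
    rw [Real.rpow_zero] at h2
    exact h2.comp h1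
  have hev : ∀ᶠ n : ℕ in atTop, (C + 1) ^ (1 / (n : ℝ)) < 2 := hlim.eventually_lt_const (by norm_num)
  obtain ⟨N, hN⟩ := eventually_atTop.1 (hev.and (eventually_gt_atTop 0))
  refine ⟨N, fun n hn => ?_⟩
  obtain ⟨h1, h2⟩ := hN n hn
  rw [Real.dist_eq, sub_zero, abs_of_nonneg (Real.rpow_nonneg (hu n) _)]
  have hn0 : (n : ℝ) ≠ 0 := by exact_mod_cast h2.ne'
  have h3 : u n ≤ (ε / 4) ^ n * (C + 1) := by
    have h4 := hC n
    have h5 : (ε / 4) ^ n * ((4 / ε) ^ n * u n) = u n := by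
      rw [← mul_assoc, ← mul_pow]
      have : ε / 4 * (4 / ε) = 1 := by field_simp
      rw [this, one_pow, one_mul]
    rw [← h5]
    apply mul_le_mul_of_nonneg_left _ (by positivity)
    linarith
  calc (u n) ^ (1 / (n : ℝ)) ≤ ((ε / 4) ^ n * (C + 1)) ^ (1 / (n : ℝ)) :=
        Real.rpow_le_rpow (hu n) h3 (by positivity)
    _ = (ε / 4) * (C + 1) ^ (1 / (n : ℝ)) := by
        rw [Real.mul_rpow (by positivity) (by positivity), ← Real.rpow_natCast, ← Real.rpow_mul
          (by positivity), mul_one_div_cancel hn0, Real.rpow_one]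
    _ ≤ (ε / 4) * 2 := mul_le_mul_of_nonneg_left h1.le (by positivity)
    _ < ε := by linarith

/-- For two entire functions with value and derivative one at the origin whose second coefficients
have different real parts there is a quasinilpotent operator `T` on a separable Hilbert space such
that `f(T)` is hypercyclic and `g(T)` is not. -/
theorem main (a b : ℕ → ℂ) (ha : Ent a) (hb : Ent b) (hab : (a 2).re ≠ (b 2).re) :
    ∃ (X : Type) (_ : NormedAddCommGroup X) (_ : InnerProductSpace ℂ X) (_ : CompleteSpace X)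
      (_ : TopologicalSpace.SeparableSpace X) (T : X →L[ℂ] X),
      Tendsto (fun n : ℕ => ‖T ^ n‖ ^ (1 / (n : ℝ))) atTop (𝓝 0) ∧
      Hyper (fop a T) ∧ ¬ Hyper (fop b T) := by
  set δ : ℝ := |(a 2).re - (b 2).re| / 4 with hδdef
  have hδ : 0 < δ := by
    have : 0 < |(a 2).re - (b 2).re| := abs_pos.2 (sub_ne_zero.2 hab)
    positivity
  set c : ℝ := (a 2).re - 1 / 2 with hcdef
  obtain ⟨η, τ, hη0, hη1, hτ0, hτ1, hsm0, hsm1, hsm2, hsm3⟩ := params c δ (‖a 2‖ + HH a) (HH a)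
    (‖b 2‖ + HH b) (HH b) hδ (add_nonneg (norm_nonneg _) (HH_nonneg a)) (HH_nonneg a)
    (add_nonneg (norm_nonneg _) (HH_nonneg b)) (HH_nonneg b)
  obtain ⟨K, i1, i2, i3, S, hsep, hnt, hdr, hform, hnorm, hpow⟩ := exists_T0 (τ / 2) η
    (by positivity) hη0
  have : TopologicalSpace.SeparableSpace (XX K) := XX_separable
  have : Nontrivial (XX K) := by
    obtain ⟨x, hx⟩ := exists_ne (0 : K)
    refine ⟨⟨kv 0 (by simp) x, 0, fun h => hx ?_⟩⟩
    have h1 := congrArg (fun f : XX K => f 0) h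
    rw [← one_smul ℂ x]
    simpa [kv_apply] using h1
  obtain ⟨T, R, hP⟩ := exists_pert (amp S) (bsh K) c δ η τ hδ.le hη0.le hτ0.le (bsh_comm S) bsh_norm
    ((amp_norm S).trans hnorm) hsm0 (amp_form S η hη0.le hform)
  obtain ⟨W, hW1, hW2, hW3, hW4⟩ := exists_W a ha T τ hτ0.le hτ1 hP.nT
  obtain ⟨W', hW1', hW2', hW3', hW4'⟩ := exists_W b hb T τ hτ0.le hτ1 hP.nT
  have hD : ∀ β : ℝ, ∀ (hβ : |β| < 1) (x : K), ∃ z : XX K, bsh K z = (β : ℂ) • z ∧
      T z = amp S (kv β hβ x) := by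
    intro β hβ x
    refine ⟨kv β hβ x + (c : ℂ) • amp S (kv β hβ x) + (δ : ℂ) • bsh K (amp S (kv β hβ x)), ?_, ?_⟩
    · have h1 : bsh K (amp S (kv β hβ x)) = (β : ℂ) • amp S (kv β hβ x) := by
        rw [← mul_apply_eq_comp, (bsh_comm S).eq, mul_apply_eq_comp, bsh_kv, map_smul]
      rw [h1, map_add, map_add, map_smul, map_smul, map_smul, h1, bsh_kv]
      simp only [smul_add, smul_smul]
      ring_nf
    · rw [hP.eqT, mul_apply_eq_comp, hP.surj]
  refine ⟨XX K, inferInstance, inferInstance, inferInstance, inferInstance, T, ?_, ?_, ?_⟩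
  · apply root_tendsto _ (fun n => norm_nonneg _)
    intro M hM
    obtain ⟨C, hC0, hC⟩ := hpow (2 * M) (by positivity)
    refine ⟨C, hC0, fun n => ?_⟩
    have h1 : ‖T ^ n‖ ≤ C / M ^ n := by
      refine ContinuousLinearMap.opNorm_le_bound _ (by positivity) fun x => ?_
      have h2 : T ^ n = amp (S ^ n) * R ^ n := by
        rw [hP.eqT, hP.commRP.mul_pow, amp_pow]
      have h3 : ∀ x, ‖(R ^ n) x‖ ≤ 2 ^ n * ‖x‖ := by
        intro x
        clear h2
        induction n with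
        | zero => simp
        | succ n ih =>
          rw [pow_succ', mul_apply_eq_comp]
          refine (hP.bR _).trans ?_
          rw [pow_succ']
          linarith
      rw [h2, mul_apply_eq_comp]
      have h4 : ‖amp (S ^ n) ((R ^ n) x)‖ ≤ C / (2 * M) ^ n * ‖(R ^ n) x‖ := by
        apply amp_bound _ _ (by positivity)
        intro y
        rw [div_mul_eq_mul_div, le_div_iff₀ (by positivity)]
        have := hC n y
        linarith
      refine h4.trans ?_
      calc C / (2 * M) ^ n * ‖(R ^ n) x‖ ≤ C / (2 * M) ^ n * (2 ^ n * ‖x‖) :=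
            mul_le_mul_of_nonneg_left (h3 x) (by positivity)
        _ = C / M ^ n * ‖x‖ := by
            rw [mul_pow]
            field_simp
    rw [le_div_iff₀ (by positivity)] at h1
    linarith
  · refine hyper_fop hP hδ hη0.le hη1 hτ0.le hτ1 a W _ _
      (add_nonneg (norm_nonneg _) (HH_nonneg a)) hW1 hW2 hW3 hW4 rfl hsm2 hsm1 ?_ ?_
    · apply amp_dense S hdr (1 / 2) 1 (by norm_num) le_rfl (by norm_num) (Or.inl (by norm_num))
      intro β hβ1 hβ2 hβ x
      obtain ⟨z, hz1, hz2⟩ := hD β hβ x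
      exact ⟨β, hβ1, z, hz1, hz2⟩
    · apply amp_dense S hdr (-1) (-(1 / 2)) le_rfl (by norm_num) (by norm_num)
        (Or.inr (by norm_num))
      intro β hβ1 hβ2 hβ x
      obtain ⟨z, hz1, hz2⟩ := hD β hβ x
      exact ⟨β, hβ2, z, hz1, hz2⟩
  · refine not_hyper_fop hP bsh_norm hδ hη0.le hη1 hτ0.le hτ1 b W' _ _
      (add_nonneg (norm_nonneg _) (HH_nonneg b)) hW1' hW3' hW4' hsm3 ?_
    have h1 : 2 * c + 1 - 2 * (b 2).re = 2 * ((a 2).re - (b 2).re) := by
      rw [hcdef]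
      ring
    rw [h1, abs_mul, abs_two, hδdef]
    linarith

end Q88.QN
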