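import Mathlib
import Pool.Agent.Q88.QN.Final

/-!
# Coefficient sequences: exponential, `1 + z`, and entire functions; spectrum of a quasinilpotent
-/

set_option autoImplicit false

open Filter Topology

namespace Q88.QN

/-- the coefficients of the exponential function -/
noncomputable def ec (n : ℕ) : ℂ := ((n.factorial : ℂ))⁻¹

/-- the coefficients of `1 + z` -/
noncomputable def lc (n : ℕ) : ℂ := if n < 2 then 1 else 0

theorem ec_ent : Ent ec := by
  refine ⟨fun r hr => ?_, by simp [ec], by simp [ec]⟩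
  have h := Real.summable_pow_div_factorial r
  refine h.congr fun n => ?_
  rw [ec, norm_inv, Complex.norm_natCast]
  field_simp

theorem lc_ent : Ent lc := by
  refine ⟨fun r hr => ?_, by simp [lc], by simp [lc]⟩
  apply summable_of_ne_finset_zero (s := Finset.range 2)
  intro n hn
  rw [Finset.mem_range] at hn
  simp [lc, hn]

theorem ec_two : (ec 2).re = 1 / 2 := by
  simp [ec, Nat.factorial]

theorem lc_two : (lc 2).re = 0 := by
  simp [lc]

variable {X : Type*} [NormedAddCommGroup X] [InnerProductSpace ℂ X] [CompleteSpace X]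

theorem fop_ec (T : X →L[ℂ] X) : fop ec T = NormedSpace.exp T := by
  rw [NormedSpace.exp_eq_tsum ℂ]
  rfl

theorem fop_lc (T : X →L[ℂ] X) : fop lc T = 1 + T := by
  rw [fop, tsum_eq_sum (s := Finset.range 2)]
  · simp [Finset.sum_range_succ, lc]
  · intro n hn
    rw [Finset.mem_range] at hn
    simp [lc, hn]

theorem spec_zero [Nontrivial X] (T : X →L[ℂ] X)
    (h : Tendsto (fun n : ℕ => ‖T ^ n‖ ^ (1 / (n : ℝ))) atTop (𝓝 0)) : spectrum ℂ T = {0} := by
  have h1 := spectrum.pow_norm_pow_one_div_tendsto_nhds_spectralRadius T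
  have h2 := ENNReal.tendsto_ofReal h
  rw [ENNReal.ofReal_zero] at h2
  have h3 : spectralRadius ℂ T = 0 := tendsto_nhds_unique h1 h2
  have h4 : (spectrum ℂ T).Nonempty := spectrum.nonempty T
  have h5 : ∀ k ∈ spectrum ℂ T, k = 0 := by
    intro k hk
    have h6 : (‖k‖₊ : ENNReal) ≤ spectralRadius ℂ T := le_iSup₂ (α := ENNReal) k hk
    rw [h3] at h6
    simpa using h6
  obtain ⟨k, hk⟩ := h4
  ext z
  rw [Set.mem_singleton_iff]
  constructor
  · exact h5 z
  · intro hz
    rw [hz, ← h5 k hk]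
    exact hk

theorem nontrivial_of_not_hyper (S : X →L[ℂ] X) (h : ¬ Hyper S) : Nontrivial X := by
  by_contra hn
  rw [not_nontrivial_iff_subsingleton] at hn
  apply h
  refine ⟨0, ?_⟩
  intro x
  rw [Subsingleton.elim x ((S ^ 0) 0)]
  exact subset_closure ⟨0, rfl⟩

/-- The main theorem for two coefficient sequences, with the spectrum. -/
theorem main' (a b : ℕ → ℂ) (ha : Ent a) (hb : Ent b) (hab : (a 2).re ≠ (b 2).re) :
    ∃ (X : Type) (_ : NormedAddCommGroup X) (_ : InnerProductSpace ℂ X) (_ : CompleteSpace X)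
      (_ : TopologicalSpace.SeparableSpace X) (T : X →L[ℂ] X),
      (Tendsto (fun n : ℕ => ‖T ^ n‖ ^ (1 / (n : ℝ))) atTop (𝓝 0) ∧ spectrum ℂ T = {0}) ∧
      Hyper (fop a T) ∧ ¬ Hyper (fop b T) := by
  obtain ⟨X, i1, i2, i3, i4, T, h1, h2, h3⟩ := main a b ha hb hab
  have := nontrivial_of_not_hyper _ h3
  exact ⟨X, i1, i2, i3, i4, T, ⟨h1, spec_zero T h1⟩, h2, h3⟩

/-- the Taylor coefficients at zero -/
noncomputable def tc (f : ℂ → ℂ) (n : ℕ) : ℂ := iteratedDeriv n f 0 / n.factorial

theorem tc_ent (f : ℂ → ℂ) (hf : Differentiable ℂ f) (h0 : f 0 = 1) (h1 : deriv f 0 = 1) :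
    Ent (tc f) := by
  refine ⟨fun r hr => ?_, by simp [tc, h0], by simp [tc, iteratedDeriv_one, h1]⟩
  have h2 := (Complex.hasSum_taylorSeries_of_entire hf 0 (r : ℂ)).summable.norm
  refine h2.congr fun n => ?_
  rw [norm_smul, norm_smul, sub_zero, tc, norm_div, norm_pow, Complex.norm_real, Real.norm_eq_abs,
    abs_of_nonneg hr, norm_inv, Complex.norm_natCast]
  field_simp

end Q88.QN
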